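import Mathlib
set_option autoImplicit false
namespace Pool.Agent.Helper23.Vojta

theorem exists_prime_pos_degree {R : Type} [CommRing R] [IsDomain R]
    [UniqueFactorizationMonoid R] {h : Polynomial R} (hh : 0 < h.natDegree) :
    ∃ p : Polynomial R, Prime p ∧ 0 < p.natDegree ∧ p ∣ h := by
  have h0 : h ≠ 0 := by
    rintro rfl
    simp at hh
  obtain ⟨s, hs, u, hu⟩ := UniqueFactorizationMonoid.exists_prime_factors h h0
  by_contra hcon
  push Not at hcon
  have h1 : ∀ p ∈ s, p.natDegree = 0 := by
    intro p hp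
    by_contra hne
    refine hcon p (hs p hp) (Nat.pos_of_ne_zero hne) ?_
    rw [← hu]
    exact Dvd.dvd.mul_right (Multiset.dvd_prod hp) _
  have h2 : s.prod.natDegree = 0 := by
    rw [Polynomial.natDegree_multiset_prod]
    · rw [Multiset.sum_eq_zero_iff]
      intro m hm
      obtain ⟨p, hp, rfl⟩ := Multiset.mem_map.1 hm
      exact h1 p hp
    · intro h0s
      exact (hs 0 h0s).ne_zero rfl
  have h3 : h.natDegree = s.prod.natDegree := by
    have h4 : s.prod ≠ 0 := by
      intro h5
      rw [h5, zero_mul] at hu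
      exact h0 hu.symm
    rw [← hu, Polynomial.natDegree_mul h4 u.ne_zero,
      Polynomial.natDegree_eq_zero_of_isUnit u.isUnit, add_zero]
  omega

theorem clear {R : Type} [CommRing R] [IsDomain R] (q : Polynomial (FractionRing R)) :
    ∃ (Q : Polynomial R) (b : R), b ≠ 0 ∧
      Q.map (algebraMap R (FractionRing R)) = Polynomial.C (algebraMap R (FractionRing R) b) * q := by
  obtain ⟨b, hbm, hb⟩ := IsLocalization.integerNormalization_spec (nonZeroDivisors R) q
  refine ⟨_, b, nonZeroDivisors.ne_zero hbm, hb.trans ?_⟩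
  rw [Algebra.smul_def]
  rfl

theorem bezout_const {R : Type} [CommRing R] [IsDomain R] [UniqueFactorizationMonoid R]
    {f g : Polynomial R} (hf : f ≠ 0) (h : IsRelPrime f g) :
    ∃ (a b : Polynomial R) (r : R), r ≠ 0 ∧ a * f + b * g = Polynomial.C r := by
  classical
  set φ := algebraMap R (FractionRing R) with hφ
  have hinj : Function.Injective φ := IsFractionRing.injective R (FractionRing R)
  have hminj := Polynomial.map_injective φ hinj
  by_cases hc : IsCoprime (f.map φ) (g.map φ)
  · obtain ⟨u, v, huv⟩ := hc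
    obtain ⟨U, b, hb, hU⟩ := clear u
    obtain ⟨V, c, hc, hV⟩ := clear v
    refine ⟨Polynomial.C c * U, Polynomial.C b * V, b * c, mul_ne_zero hb hc, ?_⟩
    apply hminj
    simp only [Polynomial.map_add, Polynomial.map_mul, Polynomial.map_C]
    rw [hU, hV]
    rw [map_mul, Polynomial.C_mul]
    linear_combination (Polynomial.C (φ b) * Polynomial.C (φ c)) * huv
  · exfalso
    have hf0 : f.map φ ≠ 0 := (Polynomial.map_ne_zero_iff hinj).2 hf
    set h0 := EuclideanDomain.gcd (f.map φ) (g.map φ) with hh0
    have hnu : ¬ IsUnit h0 := fun hu => hc (EuclideanDomain.gcd_isUnit_iff.1 hu)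
    have hd1 : h0 ∣ f.map φ := EuclideanDomain.gcd_dvd_left _ _
    have hd2 : h0 ∣ g.map φ := EuclideanDomain.gcd_dvd_right _ _
    have hne : h0 ≠ 0 := by
      intro h00
      rw [h00, zero_dvd_iff] at hd1
      exact hf0 hd1
    obtain ⟨H, b, hb, hH⟩ := clear h0
    have hHdeg : 0 < H.natDegree := by
      have h1 : (H.map φ).natDegree = H.natDegree := Polynomial.natDegree_map_eq_of_injective hinj H
      have h2 : φ b ≠ 0 := by
        intro h3
        exact hb (hinj (by rw [h3, map_zero]))
      rw [← h1, hH, Polynomial.natDegree_C_mul h2]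
      by_contra h3
      have h4 : h0.natDegree = 0 := by omega
      apply hnu
      rw [Polynomial.eq_C_of_natDegree_eq_zero h4] at hne ⊢
      rw [Polynomial.isUnit_C]
      rw [Polynomial.C_ne_zero] at hne
      exact isUnit_iff_ne_zero.2 hne
    have key : ∀ q : Polynomial R, h0 ∣ q.map φ → ∃ s : R, s ≠ 0 ∧ H ∣ Polynomial.C s * q := by
      rintro q ⟨t, ht⟩
      obtain ⟨T, c, hc, hT⟩ := clear t
      refine ⟨b * c, mul_ne_zero hb hc, T, ?_⟩
      apply hminj
      simp only [Polynomial.map_mul, Polynomial.map_C]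
      rw [hH, hT, ht, map_mul, Polynomial.C_mul]
      ring
    obtain ⟨p, hp, hpd, hpH⟩ := exists_prime_pos_degree hHdeg
    have key2 : ∀ q : Polynomial R, h0 ∣ q.map φ → p ∣ q := by
      intro q hq
      obtain ⟨s, hs, hHs⟩ := key q hq
      rcases hp.dvd_or_dvd (hpH.trans hHs) with h1 | h1
      · exfalso
        have h2 := Polynomial.natDegree_le_of_dvd h1 (Polynomial.C_ne_zero.2 hs)
        rw [Polynomial.natDegree_C] at h2
        omega
      · exact h1
    exact hp.not_isUnit (h (key2 f hd1) (key2 g hd2))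

end Pool.Agent.Helper23.Vojta
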