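import Mathlib

/-!
Algebra: for an algebraically independent family `G` of weighted homogeneous polynomials (as many
as variables) the common fibres of `G` over integer points are bounded outside a proper
weighted-homogeneous hypersurface.
-/

set_option autoImplicit false

namespace Pool.Agent.Helper23.Vojta

open MvPolynomial

variable {ι : Type} [Fintype ι] [DecidableEq ι]

theorem exists_relation (G : ι → MvPolynomial ι ℤ) (j : ι) :
    ∃ Q : MvPolynomial (Option ι) ℤ, Q ≠ 0 ∧
      aeval (fun o : Option ι => o.elim (X j : MvPolynomial ι ℤ) G) Q = 0 := by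
  by_contra h
  push Not at h
  have hind : AlgebraicIndependent ℤ
      (fun o : Option ι => o.elim (X j : MvPolynomial ι ℤ) G) := by
    rw [algebraicIndependent_iff]
    intro p hp
    by_contra hp0
    exact h p hp0 hp
  have h1 := hind.cardinalMk_le_trdeg
  rw [MvPolynomial.trdeg_of_isDomain] at h1
  simp only [Cardinal.mk_fintype, Fintype.card_option, Cardinal.lift_natCast, Nat.cast_le] at h1
  omega

omit [Fintype ι] [DecidableEq ι] in
theorem aeval_hom {τ : Type} {w : ι → ℕ} {W : τ → ℕ} {g : τ → MvPolynomial ι ℤ}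
    (hg : ∀ o, IsWeightedHomogeneous w (g o) (W o)) {P : MvPolynomial τ ℤ} {k : ℕ}
    (hP : IsWeightedHomogeneous W P k) : IsWeightedHomogeneous w (aeval g P) k := by
  classical
  rw [aeval_def, eval₂_eq]
  refine IsWeightedHomogeneous.sum _ _ _ ?_
  intro d hd
  have hk : Finsupp.weight W d = k := hP (mem_support_iff.1 hd)
  have h2 : IsWeightedHomogeneous w (∏ i ∈ d.support, g i ^ d i) (∑ i ∈ d.support, d i • W i) :=
    IsWeightedHomogeneous.prod _ _ _ (fun i _ => (hg i).pow (d i))
  have h3 : ∑ i ∈ d.support, d i • W i = k := by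
    rw [← hk, Finsupp.weight_apply, Finsupp.sum]
  rw [h3] at h2
  exact h2.C_mul _

theorem exists_hom_relation {w e : ι → ℕ} (G : ι → MvPolynomial ι ℤ)
    (hG : ∀ i, IsWeightedHomogeneous w (G i) (e i)) (j : ι) :
    ∃ (k : ℕ) (Q : MvPolynomial (Option ι) ℤ), Q ≠ 0 ∧
      IsWeightedHomogeneous (fun o : Option ι => o.elim (w j) e) Q k ∧
      aeval (fun o : Option ι => o.elim (X j : MvPolynomial ι ℤ) G) Q = 0 := by
  classical
  obtain ⟨Q, hQ, h0⟩ := exists_relation G j
  set g : Option ι → MvPolynomial ι ℤ := fun o => o.elim (X j) G with hg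
  set W : Option ι → ℕ := fun o => o.elim (w j) e with hW
  have hgW : ∀ o, IsWeightedHomogeneous w (g o) (W o) := by
    rintro (_ | i)
    · exact isWeightedHomogeneous_X ℤ w j
    · exact hG i
  obtain ⟨d, hd⟩ : ∃ d, coeff d Q ≠ 0 := exists_coeff_ne_zero hQ
  refine ⟨Finsupp.weight W d, weightedHomogeneousComponent W (Finsupp.weight W d) Q, ?_,
    weightedHomogeneousComponent_isWeightedHomogeneous _ _, ?_⟩
  · intro h
    have h1 := congrArg (coeff d) h
    rw [coeff_weightedHomogeneousComponent, if_pos rfl] at h1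
    exact hd (by simpa using h1)
  · have hsum := sum_weightedHomogeneousComponent W Q
    rw [finsum_eq_sum _ (weightedHomogeneousComponent_finsupp Q)] at hsum
    set s := (weightedHomogeneousComponent_finsupp (w := W) Q).toFinset with hs
    have h1 : ∑ m ∈ s, aeval g (weightedHomogeneousComponent W m Q) = 0 := by
      rw [← map_sum, hsum, h0]
    have h2 := congrArg (weightedHomogeneousComponent w (Finsupp.weight W d)) h1
    rw [map_sum, map_zero] at h2
    rw [Finset.sum_eq_single (Finsupp.weight W d)] at h2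
    · rwa [IsWeightedHomogeneous.weightedHomogeneousComponent_same
        (aeval_hom hgW (weightedHomogeneousComponent_isWeightedHomogeneous _ _))] at h2
    · intro m _ hm
      exact IsWeightedHomogeneous.weightedHomogeneousComponent_ne _
        (aeval_hom hgW (weightedHomogeneousComponent_isWeightedHomogeneous _ _)) hm.symm
    · intro hm
      have : weightedHomogeneousComponent W (Finsupp.weight W d) Q = 0 := by
        by_contra h
        exact hm ((Set.Finite.mem_toFinset _).2 h)
      rw [this, map_zero, map_zero]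

omit [Fintype ι] [DecidableEq ι] in
theorem coeff_hom {w e : ι → ℕ} {j : ι} {k : ℕ} {Q : MvPolynomial (Option ι) ℤ}
    (hQ : IsWeightedHomogeneous (fun o : Option ι => o.elim (w j) e) Q k) (m : ℕ) :
    IsWeightedHomogeneous e ((optionEquivLeft ℤ ι Q).coeff m) (k - m * w j) := by
  intro d hd
  have h1 := hd
  have h2 : coeff (Finsupp.optionElim m d) Q ≠ 0 := by
    rw [← optionEquivLeft_coeff_coeff]
    simpa using h1
  have h3 := hQ h2
  rw [Finsupp.weight_apply, Finsupp.sum_option_index] at h3
  · simp at h3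
    rw [Finsupp.weight_apply, ← h3]
    simp
  · intro o
    simp
  · intro o a b
    rw [add_smul]

omit [Fintype ι] [DecidableEq ι] in
theorem eval_opt (Q : MvPolynomial (Option ι) ℤ) (t : ℤ) (v : ι → ℤ) :
    ((optionEquivLeft ℤ ι Q).map (eval v)).eval t
      = eval (fun o : Option ι => o.elim t v) Q := by
  have h : ((Polynomial.evalRingHom t).comp
      ((Polynomial.mapRingHom (eval v)).comp (optionEquivLeft ℤ ι).toRingEquiv.toRingHom))
      = (eval (fun o : Option ι => o.elim t v) : MvPolynomial (Option ι) ℤ →+* ℤ) := by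
    apply MvPolynomial.ringHom_ext
    · intro r
      simp
    · rintro (_ | i)
      · simp
      · simp
  have := congrArg (fun f : MvPolynomial (Option ι) ℤ →+* ℤ => f Q) h
  simpa using this

omit [Fintype ι] [DecidableEq ι] in
theorem eval_aeval_opt (G : ι → MvPolynomial ι ℤ) (j : ι) (Q : MvPolynomial (Option ι) ℤ)
    (x : ι → ℤ) :
    eval x (aeval (fun o : Option ι => o.elim (X j : MvPolynomial ι ℤ) G) Q)
      = eval (fun o : Option ι => o.elim (x j) (fun i => eval x (G i))) Q := by
  have h : ((eval x : MvPolynomial ι ℤ →+* ℤ).comp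
      (aeval (R := ℤ) (fun o : Option ι => o.elim (X j : MvPolynomial ι ℤ) G)).toRingHom)
      = (eval (fun o : Option ι => o.elim (x j) (fun i => eval x (G i))) :
          MvPolynomial (Option ι) ℤ →+* ℤ) := by
    apply MvPolynomial.ringHom_ext
    · intro r
      simp
    · rintro (_ | i)
      · simp
      · simp
  have := congrArg (fun f : MvPolynomial (Option ι) ℤ →+* ℤ => f Q) h
  simpa using this

omit [Fintype ι] [DecidableEq ι] in
theorem eval_aeval' (G : ι → MvPolynomial ι ℤ) (l : MvPolynomial ι ℤ) (x : ι → ℤ) :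
    eval x (aeval G l) = eval (fun i => eval x (G i)) l := by
  have h : ((eval x : MvPolynomial ι ℤ →+* ℤ).comp (aeval (R := ℤ) G).toRingHom)
      = (eval (fun i => eval x (G i)) : MvPolynomial ι ℤ →+* ℤ) := by
    apply MvPolynomial.ringHom_ext
    · intro r
      simp
    · intro i
      simp
  have := congrArg (fun f : MvPolynomial ι ℤ →+* ℤ => f l) h
  simpa using this

/-- One coordinate: it takes boundedly many values on a fibre of `G`, outside a hypersurface. -/
theorem one_coord {w e : ι → ℕ} (G : ι → MvPolynomial ι ℤ) (hGi : AlgebraicIndependent ℤ G)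
    (hG : ∀ i, IsWeightedHomogeneous w (G i) (e i)) (j : ι) :
    ∃ (L : MvPolynomial ι ℤ) (m K : ℕ), L ≠ 0 ∧ IsWeightedHomogeneous w L m ∧
      ∀ v : ι → ℤ, ∃ T : Finset ℤ, T.card ≤ K ∧
        ∀ x : ι → ℤ, eval x L ≠ 0 → (∀ i, eval x (G i) = v i) → x j ∈ T := by
  classical
  obtain ⟨k, Q, hQ, hhom, h0⟩ := exists_hom_relation G hG j
  set P := optionEquivLeft ℤ ι Q with hP
  have hP0 : P ≠ 0 := by
    rw [hP]
    simpa using hQ
  set l := P.leadingCoeff with hl
  have hl0 : l ≠ 0 := by
    rw [hl]; exact Polynomial.leadingCoeff_ne_zero.2 hP0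
  refine ⟨aeval G l, k - P.natDegree * w j, P.natDegree, ?_, ?_, ?_⟩
  · intro h
    exact hl0 ((algebraicIndependent_iff.1 hGi) l h)
  · exact aeval_hom hG (coeff_hom hhom P.natDegree)
  · intro v
    refine ⟨(P.map (eval v)).roots.toFinset, ?_, ?_⟩
    · calc (P.map (eval v)).roots.toFinset.card ≤ (P.map (eval v)).roots.card :=
            Multiset.toFinset_card_le _
        _ ≤ (P.map (eval v)).natDegree := Polynomial.card_roots' _
        _ ≤ P.natDegree := Polynomial.natDegree_map_le
    · intro x hx hv
      have hv' : (fun i => eval x (G i)) = v := funext hv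
      rw [eval_aeval', hv'] at hx
      have hne : P.map (eval v) ≠ 0 := by
        intro h
        have h1 := congrArg (fun p => Polynomial.coeff p P.natDegree) h
        rw [Polynomial.coeff_map] at h1
        exact hx (by simpa using h1)
      rw [Multiset.mem_toFinset, Polynomial.mem_roots hne, Polynomial.IsRoot.def, hP,
        eval_opt]
      have h2 := eval_aeval_opt G j Q x
      rw [h0, map_zero, hv'] at h2
      exact h2.symm

/-- Bounded fibres outside a proper weighted homogeneous hypersurface. -/
theorem bounded_fibres {w e : ι → ℕ} (G : ι → MvPolynomial ι ℤ) (hGi : AlgebraicIndependent ℤ G)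
    (hG : ∀ i, IsWeightedHomogeneous w (G i) (e i)) :
    ∃ (L : MvPolynomial ι ℤ) (m K : ℕ), L ≠ 0 ∧ IsWeightedHomogeneous w L m ∧
      ∀ v : ι → ℤ, ∃ T : Finset (ι → ℤ), T.card ≤ K ∧
        ∀ x : ι → ℤ, eval x L ≠ 0 → (∀ i, eval x (G i) = v i) → x ∈ T := by
  classical
  choose L m K hL hhom hT using fun j => one_coord G hGi hG j
  refine ⟨∏ j, L j, ∑ j, m j, ∏ j, K j, Finset.prod_ne_zero_iff.2 (fun j _ => hL j),
    IsWeightedHomogeneous.prod _ _ _ (fun j _ => hhom j), ?_⟩
  intro v
  choose T hTc hTx using fun j => hT j v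
  refine ⟨Fintype.piFinset T, ?_, ?_⟩
  · rw [Fintype.card_piFinset]
    exact Finset.prod_le_prod' (fun j _ => hTc j)
  · intro x hx hv
    rw [Fintype.mem_piFinset]
    intro j
    apply hTx j x _ hv
    rw [map_prod] at hx
    exact (Finset.prod_ne_zero_iff.1 hx) j (Finset.mem_univ j)

end Pool.Agent.Helper23.Vojta
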