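import Mathlib

/-!
The number of positive integers up to `T` all of whose prime factors divide `m` is
`O_ε((T m)^ε)` (Rankin's trick).
-/

set_option autoImplicit false

namespace Pool.Agent.Helper23.Vojta

open Finset

/-- `n ↦ n ^ (-ε)` as a multiplicative map. -/
noncomputable def powHom (ε : ℝ) : ℕ →* ℝ where
  toFun n := (n : ℝ) ^ (-ε)
  map_one' := by simp
  map_mul' m n := by
    push_cast
    exact Real.mul_rpow (Nat.cast_nonneg _) (Nat.cast_nonneg _)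

theorem powHom_apply (ε : ℝ) (n : ℕ) : powHom ε n = (n : ℝ) ^ (-ε) := rfl

theorem rpow_neg_lt_one {ε : ℝ} (hε : 0 < ε) {p : ℕ} (hp : p.Prime) : (p : ℝ) ^ (-ε) < 1 :=
  Real.rpow_lt_one_of_one_lt_of_neg (by exact_mod_cast hp.one_lt) (by linarith)

theorem card_le_prod {ε : ℝ} (hε : 0 < ε) (s A : Finset ℕ) {T : ℝ}
    (hA : ∀ t ∈ A, t ∈ Nat.factoredNumbers s) (hT : ∀ t ∈ A, (t : ℝ) ≤ T) (hT0 : 0 ≤ T) :
    (A.card : ℝ) ≤ T ^ ε * ∏ p ∈ s with p.Prime, (1 - (p : ℝ) ^ (-ε))⁻¹ := by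
  classical
  have hlt : ∀ {p : ℕ}, p.Prime → ‖powHom ε p‖ < 1 := by
    intro p hp
    rw [powHom_apply, Real.norm_of_nonneg (Real.rpow_nonneg (Nat.cast_nonneg _) _)]
    exact rpow_neg_lt_one hε hp
  have hs := (EulerProduct.summable_and_hasSum_factoredNumbers_prod_filter_prime_geometric
    (f := powHom ε) hlt s).2
  have h1 : ∑ t ∈ A, powHom ε t ≤ ∏ p ∈ s with p.Prime, (1 - powHom ε p)⁻¹ := by
    have h2 : ∑ t ∈ A.subtype (· ∈ Nat.factoredNumbers s), powHom ε t = ∑ t ∈ A, powHom ε t := by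
      rw [sum_subtype_of_mem (fun t => powHom ε t) hA]
    rw [← h2]
    apply sum_le_hasSum _ _ hs
    intro t _
    exact Real.rpow_nonneg (Nat.cast_nonneg _) _
  have h3 : (A.card : ℝ) ≤ T ^ ε * ∑ t ∈ A, powHom ε t := by
    rw [mul_sum, card_eq_sum_ones, Nat.cast_sum]
    apply sum_le_sum
    intro t ht
    have ht0 : 0 < (t : ℝ) := by
      exact_mod_cast Nat.pos_of_ne_zero (Nat.ne_zero_of_mem_factoredNumbers (hA t ht))
    rw [powHom_apply, Real.rpow_neg ht0.le, ← div_eq_mul_inv, Nat.cast_one,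
      le_div_iff₀ (Real.rpow_pos_of_pos ht0 _), one_mul]
    exact Real.rpow_le_rpow ht0.le (hT t ht) hε.le
  exact h3.trans (mul_le_mul_of_nonneg_left h1 (Real.rpow_nonneg hT0 _))

theorem prod_le_pow {ε : ℝ} (hε : 0 < ε) : ∃ C : ℝ, 1 ≤ C ∧ ∀ m : ℕ, m ≠ 0 →
    ∏ p ∈ m.primeFactors with p.Prime, (1 - (p : ℝ) ^ (-ε))⁻¹ ≤ C * (m : ℝ) ^ ε := by
  classical
  set K : ℝ := (1 - (2 : ℝ) ^ (-ε))⁻¹ with hK
  have h2 : (2 : ℝ) ^ (-ε) < 1 := by
    have := rpow_neg_lt_one hε Nat.prime_two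
    simpa using this
  have h2' : 0 < (2 : ℝ) ^ (-ε) := Real.rpow_pos_of_pos (by norm_num) _
  have hK1 : 1 ≤ K := by
    rw [hK]
    exact (one_le_inv₀ (by linarith)).2 (by linarith)
  set N0 : ℕ := ⌈(2 : ℝ) ^ (1 / ε)⌉₊ with hN0
  refine ⟨K ^ N0, one_le_pow₀ hK1, ?_⟩
  intro m hm
  have hfac : ∀ p ∈ m.primeFactors.filter Nat.Prime, (1 - (p : ℝ) ^ (-ε))⁻¹
      ≤ (if p < N0 then K else 1) * (p : ℝ) ^ ε := by
    intro p hp
    have hpp : p.Prime := (mem_filter.1 hp).2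
    have hp1 : (1 : ℝ) ≤ p := by exact_mod_cast hpp.one_lt.le
    have hp0 : (0 : ℝ) < p := by linarith
    have hpe : (1 : ℝ) ≤ (p : ℝ) ^ ε := Real.one_le_rpow hp1 hε.le
    split_ifs with h
    · have h4 : (1 - (p : ℝ) ^ (-ε))⁻¹ ≤ K := by
        rw [hK]
        apply inv_anti₀ (by linarith)
        have : (p : ℝ) ^ (-ε) ≤ (2 : ℝ) ^ (-ε) :=
          Real.rpow_le_rpow_of_nonpos (by norm_num) (by exact_mod_cast hpp.two_le)
            (by linarith)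
        linarith
      calc (1 - (p : ℝ) ^ (-ε))⁻¹ ≤ K := h4
        _ = K * 1 := (mul_one _).symm
        _ ≤ K * (p : ℝ) ^ ε := mul_le_mul_of_nonneg_left hpe (by linarith)
    · rw [one_mul]
      push Not at h
      have h5 : (2 : ℝ) ^ (1 / ε) ≤ p := (Nat.le_ceil _).trans (by exact_mod_cast h)
      have h6 : (2 : ℝ) ≤ (p : ℝ) ^ ε := by
        calc (2 : ℝ) = ((2 : ℝ) ^ (1 / ε)) ^ ε := by
              rw [← Real.rpow_mul (by norm_num), one_div, inv_mul_cancel₀ hε.ne',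
                Real.rpow_one]
          _ ≤ (p : ℝ) ^ ε := Real.rpow_le_rpow (by positivity) h5 hε.le
      rw [Real.rpow_neg hp0.le]
      have h7 : (0 : ℝ) < 1 - ((p : ℝ) ^ ε)⁻¹ := by
        have : ((p : ℝ) ^ ε)⁻¹ ≤ 2⁻¹ := inv_anti₀ (by norm_num) h6
        linarith [this, (by norm_num : (2 : ℝ)⁻¹ < 1)]
      rw [inv_le_comm₀ h7 (by linarith)]
      have h8 : ((p : ℝ) ^ ε)⁻¹ ≤ 2⁻¹ := inv_anti₀ (by norm_num) h6
      linarith [h8, (by norm_num : (2 : ℝ)⁻¹ = 1 / 2)]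
  have hnn : ∀ p ∈ m.primeFactors.filter Nat.Prime, 0 ≤ (1 - (p : ℝ) ^ (-ε))⁻¹ := by
    intro p hp
    have := rpow_neg_lt_one hε (mem_filter.1 hp).2
    exact inv_nonneg.2 (by linarith)
  refine (prod_le_prod hnn hfac).trans ?_
  rw [prod_mul_distrib]
  have h9 : ∏ p ∈ m.primeFactors.filter Nat.Prime, (if p < N0 then K else 1) ≤ K ^ N0 := by
    rw [prod_ite, prod_const_one, mul_one, prod_const]
    apply pow_le_pow_right₀ hK1
    calc _ ≤ (range N0).card := card_le_card (by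
            intro p hp
            exact mem_range.2 (mem_filter.1 hp).2)
      _ = N0 := card_range _
  have h10 : ∏ p ∈ m.primeFactors.filter Nat.Prime, (p : ℝ) ^ ε ≤ (m : ℝ) ^ ε := by
    rw [Real.finsetProd_rpow _ _ (fun p _ => Nat.cast_nonneg p)]
    apply Real.rpow_le_rpow (prod_nonneg fun p _ => Nat.cast_nonneg p) _ hε.le
    have : m.primeFactors.filter Nat.Prime = m.primeFactors :=
      filter_true_of_mem (fun p hp => Nat.prime_of_mem_primeFactors hp)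
    rw [this]
    have h11 : ((∏ p ∈ m.primeFactors, p : ℕ) : ℝ) ≤ (m : ℝ) := by
      exact_mod_cast Nat.le_of_dvd (Nat.pos_of_ne_zero hm) (Nat.prod_primeFactors_dvd m)
    rwa [Nat.cast_prod] at h11
  exact mul_le_mul h9 h10 (prod_nonneg fun p _ => Real.rpow_nonneg (Nat.cast_nonneg _) _)
    (by positivity)

/-- Rankin: few integers up to `T` are composed of the primes dividing `m`. -/
theorem rankin {ε : ℝ} (hε : 0 < ε) : ∃ C : ℝ, 1 ≤ C ∧ ∀ (m : ℕ), m ≠ 0 → ∀ (T : ℝ), 0 ≤ T →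
    ∀ A : Finset ℕ, (∀ t ∈ A, t ≠ 0 ∧ (t : ℝ) ≤ T ∧ ∀ p : ℕ, p.Prime → p ∣ t → p ∣ m) →
      (A.card : ℝ) ≤ C * (T ^ ε * (m : ℝ) ^ ε) := by
  obtain ⟨C, hC, h⟩ := prod_le_pow hε
  refine ⟨C, hC, ?_⟩
  intro m hm T hT A hA
  have h1 := card_le_prod hε m.primeFactors A (T := T) (by
    intro t ht
    refine Nat.mem_factoredNumbers.2 ⟨(hA t ht).1, ?_⟩
    intro p hp
    have hpp := Nat.prime_of_mem_primeFactorsList hp
    exact Nat.mem_primeFactors.2 ⟨hpp, (hA t ht).2.2 p hpp (Nat.dvd_of_mem_primeFactorsList hp),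
      hm⟩) (fun t ht => (hA t ht).2.1) hT
  refine h1.trans ?_
  have h2 := mul_le_mul_of_nonneg_left (h m hm) (Real.rpow_nonneg hT ε)
  calc _ ≤ T ^ ε * (C * (m : ℝ) ^ ε) := h2
    _ = C * (T ^ ε * (m : ℝ) ^ ε) := by ring

end Pool.Agent.Helper23.Vojta
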