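import Pool.Agent.Helper23.Vojta.Alg
import Pool.Agent.Helper23.Vojta.Smooth

/-!
Counting integer vectors `x` with `|x i| ≤ B ^ w i` for which the radical of `F(x)` outside `S`
is small.
-/

set_option autoImplicit false

namespace Pool.Agent.Helper23.Vojta

open MvPolynomial Finset

variable {ι : Type} [Fintype ι] [DecidableEq ι]

/-- The radical of `F(x)` outside `S`. -/
noncomputable def rad (S : Finset ℕ) (F : MvPolynomial ι ℤ) (x : ι → ℤ) : ℕ :=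
  ∏ p ∈ (eval x F).natAbs.primeFactors \ S, p

omit [Fintype ι] [DecidableEq ι] in
theorem abs_eval_le {w : ι → ℕ} {G : MvPolynomial ι ℤ} {e : ℕ}
    (hG : IsWeightedHomogeneous w G e) : ∃ c : ℝ, 1 ≤ c ∧ ∀ B : ℝ, 1 ≤ B → ∀ x : ι → ℤ,
      (∀ i, |(x i : ℝ)| ≤ B ^ (w i)) → |((eval x G : ℤ) : ℝ)| ≤ c * B ^ (e : ℝ) := by
  refine ⟨1 + ∑ d ∈ G.support, |((coeff d G : ℤ) : ℝ)|, ?_, ?_⟩
  · have : 0 ≤ ∑ d ∈ G.support, |((coeff d G : ℤ) : ℝ)| := sum_nonneg fun _ _ => abs_nonneg _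
    linarith
  intro B hB x hx
  have hB0 : 0 < B := by linarith
  have h1 : |((eval x G : ℤ) : ℝ)| ≤ ∑ d ∈ G.support, |((coeff d G : ℤ) : ℝ)| * B ^ (e : ℝ) := by
    rw [eval_eq]
    push_cast
    refine (abs_sum_le_sum_abs _ _).trans (sum_le_sum ?_)
    intro d hd
    rw [abs_mul]
    refine mul_le_mul_of_nonneg_left ?_ (abs_nonneg _)
    have hk : Finsupp.weight w d = e := hG (mem_support_iff.1 hd)
    rw [Finsupp.weight_apply, Finsupp.sum] at hk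
    rw [abs_prod, ← hk, Real.rpow_natCast, ← prod_pow_eq_pow_sum]
    apply prod_le_prod (fun i _ => abs_nonneg _)
    intro i _
    rw [abs_pow, smul_eq_mul, mul_comm, pow_mul]
    exact pow_le_pow_left₀ (abs_nonneg _) (hx i) _
  rw [← sum_mul] at h1
  have : 0 ≤ B ^ (e : ℝ) := (Real.rpow_pos_of_pos hB0 _).le
  nlinarith

open Classical in
/-- The possible values of `G_i(x)`, given the radical `r` of `F(x)`. -/
noncomputable def vals (S : Finset ℕ) (P : Prop) (M : ℤ) (r : ℕ) : Finset ℤ :=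
  (Icc (-M) M).filter (fun v => P → v ≠ 0 ∧ ∀ p : ℕ, p.Prime → (p : ℤ) ∣ v → p ∈ S ∨ p ∣ r)

open Classical in
theorem card_vals_false {S : Finset ℕ} {P : Prop} (T : ℝ) (hT : 1 ≤ T) (r : ℕ) :
    ((vals S P ⌊T⌋ r).card : ℝ) ≤ 3 * T := by
  have h1 : (vals S P ⌊T⌋ r).card ≤ (Icc (-⌊T⌋) ⌊T⌋).card := card_filter_le _ _
  rw [Int.card_Icc] at h1
  have h2 : ((⌊T⌋ + 1 - -⌊T⌋).toNat : ℝ) = 2 * (⌊T⌋ : ℝ) + 1 := by
    have h3 : 0 ≤ ⌊T⌋ + 1 - -⌊T⌋ := by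
      have : 0 ≤ ⌊T⌋ := Int.floor_nonneg.2 (by linarith)
      linarith
    have h4 : (((⌊T⌋ + 1 - -⌊T⌋).toNat : ℤ) : ℝ) = ((⌊T⌋ + 1 - -⌊T⌋ : ℤ) : ℝ) := by
      rw [Int.toNat_of_nonneg h3]
    rw [Int.cast_natCast] at h4
    rw [h4]
    push_cast
    ring
  have h5 : ((vals S P ⌊T⌋ r).card : ℝ) ≤ 2 * (⌊T⌋ : ℝ) + 1 := by
    rw [← h2]
    exact_mod_cast h1
  have h6 : (⌊T⌋ : ℝ) ≤ T := Int.floor_le T
  linarith

open Classical in
theorem card_vals_true {ε : ℝ} (hε : 0 < ε) {S : Finset ℕ} (hS : ∀ p ∈ S, p.Prime) :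
    ∃ C : ℝ, 0 ≤ C ∧ ∀ {P : Prop}, P → ∀ (T : ℝ), 0 ≤ T → ∀ r : ℕ, r ≠ 0 →
      ((vals S P ⌊T⌋ r).card : ℝ) ≤ C * (T ^ ε * (r : ℝ) ^ ε) := by
  obtain ⟨C, hC, h⟩ := rankin hε
  set PS : ℕ := ∏ p ∈ S, p with hPS
  have hPS0 : PS ≠ 0 := prod_ne_zero_iff.2 fun p hp => (hS p hp).ne_zero
  refine ⟨2 * C * (PS : ℝ) ^ ε, by positivity, ?_⟩
  intro P hP T hT r hr
  set A : Finset ℤ := vals S P ⌊T⌋ r with hA
  have h1 : A.card ≤ 2 * (A.image Int.natAbs).card := by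
    apply card_le_mul_card_image
    intro a _
    have : (A.filter (fun v => v.natAbs = a)) ⊆ {(a : ℤ), -(a : ℤ)} := by
      intro v hv
      have h2 := (mem_filter.1 hv).2
      rw [mem_insert, mem_singleton]
      exact Int.natAbs_eq_iff.1 h2
    exact (card_le_card this).trans (card_le_two)
  have h2 := h (r * PS) (mul_ne_zero hr hPS0) T hT (A.image Int.natAbs) (by
    intro t ht
    obtain ⟨v, hv, rfl⟩ := mem_image.1 ht
    have hv1 := mem_filter.1 (hA ▸ hv)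
    have hv2 := hv1.2 hP
    refine ⟨Int.natAbs_ne_zero.2 hv2.1, ?_, ?_⟩
    · have h3 := mem_Icc.1 hv1.1
      have h4 : ((v.natAbs : ℤ)) ≤ ⌊T⌋ := by
        rw [Int.natCast_natAbs]
        exact abs_le.2 h3
      calc ((v.natAbs : ℕ) : ℝ) = ((v.natAbs : ℤ) : ℝ) := by simp
        _ ≤ (⌊T⌋ : ℝ) := by exact_mod_cast h4
        _ ≤ T := Int.floor_le T
    · intro p hp hpv
      have h5 : (p : ℤ) ∣ v := Int.natCast_dvd.2 hpv
      rcases hv2.2 p hp h5 with h6 | h6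
      · exact Dvd.dvd.mul_left (dvd_prod_of_mem _ h6) _
      · exact Dvd.dvd.mul_right h6 _)
  have h3 : (A.card : ℝ) ≤ 2 * ((A.image Int.natAbs).card : ℝ) := by exact_mod_cast h1
  have h4 : ((r * PS : ℕ) : ℝ) ^ ε = (r : ℝ) ^ ε * (PS : ℝ) ^ ε := by
    push_cast
    exact Real.mul_rpow (Nat.cast_nonneg _) (Nat.cast_nonneg _)
  rw [h4] at h2
  calc (A.card : ℝ) ≤ 2 * ((A.image Int.natAbs).card : ℝ) := h3
    _ ≤ 2 * (C * (T ^ ε * ((r : ℝ) ^ ε * (PS : ℝ) ^ ε))) := by linarith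
    _ = 2 * C * (PS : ℝ) ^ ε * (T ^ ε * (r : ℝ) ^ ε) := by ring

open Classical in
/-- Per coordinate bound. -/
theorem card_vals {S : Finset ℕ} (hS : ∀ p ∈ S, p.Prime) (P : Prop) (e : ℕ) {c : ℝ} (hc : 1 ≤ c)
    {a R0 η : ℝ} (ha : 0 ≤ a) (hR0 : 0 ≤ R0) (hη : 0 < η) :
    ∃ C : ℝ, 0 ≤ C ∧ ∀ B : ℝ, 1 ≤ B → ∀ r : ℕ, r ≠ 0 → (r : ℝ) ≤ R0 * B ^ a →
      ((vals S P ⌊c * B ^ (e : ℝ)⌋ r).card : ℝ) ≤ C * B ^ (if P then η else (e : ℝ)) := by
  by_cases hP : P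
  · simp only [hP, if_true]
    set ε : ℝ := η / (e + a + 1) with hε
    have hden : 0 < (e : ℝ) + a + 1 := by positivity
    have hε0 : 0 < ε := div_pos hη hden
    obtain ⟨C, hC, h⟩ := card_vals_true hε0 hS
    refine ⟨C * (c ^ ε * R0 ^ ε), by positivity, ?_⟩
    intro B hB r hr hrR
    have hB0 : 0 < B := by linarith
    have h1 := h (P := True) trivial (c * B ^ (e : ℝ)) (by positivity) r hr
    have h2 : (r : ℝ) ^ ε ≤ (R0 * B ^ a) ^ ε :=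
      Real.rpow_le_rpow (Nat.cast_nonneg _) hrR hε0.le
    have h3 : (R0 * B ^ a) ^ ε = R0 ^ ε * B ^ (a * ε) := by
      rw [Real.mul_rpow hR0 (Real.rpow_nonneg hB0.le _), ← Real.rpow_mul hB0.le]
    have h4 : (c * B ^ (e : ℝ)) ^ ε = c ^ ε * B ^ ((e : ℝ) * ε) := by
      rw [Real.mul_rpow (by linarith) (Real.rpow_nonneg hB0.le _), ← Real.rpow_mul hB0.le]
    have h5 : B ^ ((e : ℝ) * ε) * B ^ (a * ε) ≤ B ^ η := by
      rw [← Real.rpow_add hB0]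
      apply Real.rpow_le_rpow_of_exponent_le hB
      have : ((e : ℝ) * ε + a * ε) = ((e : ℝ) + a) / (e + a + 1) * η := by
        rw [hε]; ring
      rw [this]
      have h6 : ((e : ℝ) + a) / (e + a + 1) ≤ 1 := by
        rw [div_le_one hden]; linarith
      nlinarith
    calc _ ≤ C * ((c * B ^ (e : ℝ)) ^ ε * (r : ℝ) ^ ε) := by convert h1
      _ ≤ C * ((c ^ ε * B ^ ((e : ℝ) * ε)) * (R0 ^ ε * B ^ (a * ε))) := by
          rw [h4]
          rw [h3] at h2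
          gcongr
      _ = C * (c ^ ε * R0 ^ ε) * (B ^ ((e : ℝ) * ε) * B ^ (a * ε)) := by ring
      _ ≤ C * (c ^ ε * R0 ^ ε) * B ^ η := by gcongr
  · simp only [hP, if_false]
    refine ⟨3 * c, by linarith, ?_⟩
    intro B hB r _ _
    have h1 : 1 ≤ c * B ^ (e : ℝ) := by
      have : 1 ≤ B ^ (e : ℝ) := Real.one_le_rpow hB (Nat.cast_nonneg _)
      nlinarith
    have h2 := card_vals_false (S := S) (P := False) (c * B ^ (e : ℝ)) h1 r
    calc _ ≤ 3 * (c * B ^ (e : ℝ)) := by convert h2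
      _ = 3 * c * B ^ (e : ℝ) := by ring

end Pool.Agent.Helper23.Vojta
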