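import Pool.Agent.Helper23.Vojta.CurveCount

/-!
Vojta's inequality for integral points of weighted projective stacky lines: the exceptional points.
-/

set_option autoImplicit false

namespace Pool.Agent.Helper23.Vojta

open MvPolynomial

theorem curve_main (w : Fin 2 → ℕ) (hw : ∀ i, 1 ≤ w i)
    (S : Finset ℕ) (hS : ∀ p ∈ S, p.Prime)
    (F : MvPolynomial (Fin 2) ℤ) (hF : F ≠ 0) (d : ℕ)
    (k : ℕ) (hk : 2 ≤ k) (G : Fin k → MvPolynomial (Fin 2) ℤ) (e : Fin k → ℕ)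
    (he : ∀ i, 0 < e i) (hG : ∀ i, IsWeightedHomogeneous w (G i) (e i)) (hGF : ∀ i, G i ∣ F)
    (hcop : Pairwise fun i j => IsRelPrime (G i) (G j))
    (δ η c : ℝ) (hη : 0 < η) (hd : (∑ i, w i : ℕ) + δ ≤ d) :
    ∃ C : ℝ, ∀ B : ℝ, 1 ≤ B →
      ({x : Fin 2 → ℤ | IsIntegralPoint w S x ∧ height w x ≤ B ∧ eval x F ≠ 0 ∧
          truncatedCount S F x
            < (d - (∑ i, w i : ℕ) - δ) * Real.log (height w x) + c}.ncard : ℝ)
        ≤ C * B ^ (-((∑ i, w i : ℕ) - 2 / k * (d - (∑ i, w i : ℕ) - δ) - η) : ℝ) *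
          ({x : Fin 2 → ℤ | IsIntegralPoint w S x ∧ height w x ≤ B}.ncard : ℝ) := by
  have ha : 0 ≤ (d : ℝ) - (∑ i, w i : ℕ) - δ := by linarith
  obtain ⟨C, hC0, hC⟩ := curve_count hw hS hF hk G e he hG hGF hcop
    (d - (∑ i, w i : ℕ) - δ) (Real.exp c) η ha (Real.exp_pos _) hη
  obtain ⟨c0, hc0, hpts⟩ := points_ge (n := 1) le_rfl w hw S hS
  refine ⟨C / c0, ?_⟩
  intro B hB
  have hB0 : 0 < B := by linarith
  set E : Set (Fin 2 → ℤ) := {x | IsIntegralPoint w S x ∧ height w x ≤ B ∧ eval x F ≠ 0 ∧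
      truncatedCount S F x < (d - (∑ i, w i : ℕ) - δ) * Real.log (height w x) + c} with hE
  have hfin : E.Finite := (finite_box hw B hB0.le).subset (fun x hx => hx.2.1)
  have h1 : (E.ncard : ℝ) ≤ C * B ^ (2 / (k : ℝ) * (d - (∑ i, w i : ℕ) - δ) + η) := by
    rw [Set.ncard_eq_toFinset_card _ hfin]
    apply hC B hB
    intro x hx
    rw [Set.Finite.mem_toFinset] at hx
    obtain ⟨hxi, hxB, hxF, hxN⟩ := hx
    refine ⟨hxi, (height_le_iff hw x hB0.le).1 hxB, hxF, ?_⟩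
    rw [truncatedCount_eq] at hxN
    have hr : (0 : ℝ) < (rad S F x : ℝ) := by
      exact_mod_cast rad_pos S F x
    have hlog : Real.log (height w x) ≤ Real.log B := by
      rcases le_or_gt (height w x) 0 with h0 | h0
      · have h00 : 0 ≤ height w x := by
          unfold height
          exact (Real.rpow_nonneg (abs_nonneg _) _).trans
            (Finset.le_sup' (fun i => |(x i : ℝ)| ^ (1 / (w i : ℝ))) (Finset.mem_univ 0))
        have : height w x = 0 := le_antisymm h0 h00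
        rw [this, Real.log_zero]
        exact Real.log_nonneg hB
      · exact Real.log_le_log h0 hxB
    rw [← Real.log_le_log_iff hr (by positivity), Real.log_mul (Real.exp_pos _).ne'
      (Real.rpow_pos_of_pos hB0 _).ne', Real.log_exp, Real.log_rpow hB0]
    nlinarith [mul_le_mul_of_nonneg_left hlog ha]
  refine h1.trans ?_
  have h2 := hpts B hB
  have h3 : B ^ (2 / (k : ℝ) * (d - (∑ i, w i : ℕ) - δ) + η)
      = B ^ (-((∑ i, w i : ℕ) - 2 / k * (d - (∑ i, w i : ℕ) - δ) - η) : ℝ) *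
        B ^ (∑ i, w i) := by
    rw [← Real.rpow_natCast, ← Real.rpow_add hB0]
    congr 1
    ring
  rw [h3]
  have h4 : 0 ≤ B ^ (-((∑ i, w i : ℕ) - 2 / k * (d - (∑ i, w i : ℕ) - δ) - η) : ℝ) :=
    Real.rpow_nonneg hB0.le _
  have h5 : B ^ (∑ i, w i) ≤
      ({x : Fin 2 → ℤ | IsIntegralPoint w S x ∧ height w x ≤ B}.ncard : ℝ) / c0 := by
    rw [le_div_iff₀ hc0]
    linarith
  calc _ ≤ C * (B ^ (-((∑ i, w i : ℕ) - 2 / k * (d - (∑ i, w i : ℕ) - δ) - η) : ℝ) *
        (({x : Fin 2 → ℤ | IsIntegralPoint w S x ∧ height w x ≤ B}.ncard : ℝ) / c0)) := by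
        gcongr
    _ = _ := by ring

end Pool.Agent.Helper23.Vojta
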