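import Mathlib
import Pool.Agent.Helper23.Vojta.Gauss
set_option autoImplicit false
namespace Pool.Agent.Helper23.Vojta
open MvPolynomial

theorem component_mem_span {w : Fin 2 → ℕ} {G H P : MvPolynomial (Fin 2) ℤ} {e f : ℕ}
    (hG : IsWeightedHomogeneous w G e) (hH : IsWeightedHomogeneous w H f)
    (hP : P ∈ Ideal.span {G, H}) (m : ℕ) :
    weightedHomogeneousComponent w m P ∈ Ideal.span {G, H} := by
  let := weightedGradedAlgebra ℤ w
  have h1 : (Ideal.span {G, H}).IsHomogeneous (weightedHomogeneousSubmodule ℤ w) := by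
    apply Ideal.homogeneous_span
    intro x hx
    rcases hx with rfl | hx
    · exact ⟨e, hG⟩
    · rw [Set.mem_singleton_iff] at hx
      subst hx
      exact ⟨f, hH⟩
  have h2 := (Ideal.IsHomogeneous.mem_iff _ h1).1 hP m
  have h3 : (DirectSum.decompose (weightedHomogeneousSubmodule ℤ w) P m : MvPolynomial (Fin 2) ℤ)
      = weightedHomogeneousComponent w m P := decompose'_apply ℤ w P m
  rwa [h3] at h2

theorem elim_var {w : Fin 2 → ℕ} (hw : ∀ i, 1 ≤ w i) {i j : Fin 2} (hij : j ≠ i)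
    {G H : MvPolynomial (Fin 2) ℤ} (hG0 : G ≠ 0) {e f : ℕ}
    (hG : IsWeightedHomogeneous w G e) (hH : IsWeightedHomogeneous w H f)
    (h : IsRelPrime G H) :
    ∃ (R : ℤ) (N : ℕ), R ≠ 0 ∧ C R * X j ^ N ∈ Ideal.span {G, H} := by
  classical
  let S := MvPolynomial { j // j ≠ i } ℤ
  let E : MvPolynomial (Fin 2) ℤ ≃ₐ[ℤ] Polynomial S :=
    (renameEquiv ℤ (Equiv.optionSubtypeNe i).symm).trans (optionEquivLeft ℤ _)
  have he : E.symm.toAlgHom.comp Polynomial.CAlgHom = rename (↑) := by ext; simp [E, S]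
  have hrel : IsRelPrime (E G) (E H) := by
    apply IsRelPrime.of_map E.symm
    simpa using h
  have hE0 : E G ≠ 0 := by simpa using hG0
  obtain ⟨a, b, r, hr, hab⟩ := bezout_const hE0 hrel
  have h1 : E.symm (Polynomial.C r) = rename (fun x : { j // j ≠ i } => (x : Fin 2)) r := by
    have := congrArg (fun φ => φ r) he
    simpa using this
  have h2 : E.symm a * G + E.symm b * H = rename (fun x : { j // j ≠ i } => (x : Fin 2)) r := by
    rw [← h1, ← hab]
    simp
  set P := rename (fun x : { j // j ≠ i } => (x : Fin 2)) r with hP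
  have hPmem : P ∈ Ideal.span {G, H} := by
    rw [← h2, Ideal.mem_span_pair]
    exact ⟨_, _, rfl⟩
  have hP0 : P ≠ 0 := by
    rw [hP]
    intro h3
    exact hr ((rename_eq_zero_iff_of_injective _ Subtype.val_injective).1 h3)
  obtain ⟨d, hd⟩ : ∃ d, coeff d P ≠ 0 := exists_coeff_ne_zero hP0
  have hdi : ∀ d', coeff d' P ≠ 0 → d' = Finsupp.single j (d' j) := by
    intro d' hd'
    obtain ⟨u, hu, _⟩ := coeff_rename_ne_zero _ _ _ hd'
    have h3 : d' i = 0 := by
      rw [← hu]
      apply Finsupp.mapDomain_of_notMem_range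
      rintro ⟨x, hx⟩
      exact x.2 hx
    ext l
    rw [Finsupp.single_apply]
    split_ifs with hl
    · rw [hl]
    · have : l = i := by omega
      rw [this, h3]
  refine ⟨coeff d P, d j, hd, ?_⟩
  have h4 := component_mem_span hG hH hPmem (Finsupp.weight w d)
  have h5 : weightedHomogeneousComponent w (Finsupp.weight w d) P = C (coeff d P) * X j ^ (d j) := by
    ext d'
    rw [coeff_weightedHomogeneousComponent, X_pow_eq_monomial, C_mul_monomial, mul_one, coeff_monomial]
    by_cases hdd : d' = d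
    · subst hdd
      rw [if_pos rfl, if_pos (hdi _ hd).symm]
    · have hne1 : ¬ (Finsupp.single j (d j) = d') := by
        intro h6
        exact hdd (by rw [← h6]; exact (hdi d hd).symm)
      rw [if_neg hne1]
      by_cases hwt : Finsupp.weight w d' = Finsupp.weight w d
      · rw [if_pos hwt]
        by_contra hne
        apply hdd
        have h7 := hdi d' hne
        have h8 := hdi d hd
        rw [h7, h8, Finsupp.weight_single, Finsupp.weight_single] at hwt
        simp only [smul_eq_mul] at hwt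
        have h9 : d' j = d j := Nat.eq_of_mul_eq_mul_right (hw j) hwt
        rw [h7, h8, h9]
      · rw [if_neg hwt]
  rwa [h5] at h4

/-- Only finitely many primes divide both `G(x)` and `H(x)` without dividing `x`. -/
theorem common_primes {w : Fin 2 → ℕ} (hw : ∀ i, 1 ≤ w i)
    {G H : MvPolynomial (Fin 2) ℤ} (hG0 : G ≠ 0) {e f : ℕ}
    (hG : IsWeightedHomogeneous w G e) (hH : IsWeightedHomogeneous w H f)
    (h : IsRelPrime G H) :
    ∃ R : ℕ, R ≠ 0 ∧ ∀ p : ℕ, p.Prime → ¬ p ∣ R → ∀ x : Fin 2 → ℤ,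
      (p : ℤ) ∣ eval x G → (p : ℤ) ∣ eval x H → ∀ i, (p : ℤ) ∣ x i := by
  have key : ∀ j : Fin 2, ∃ (R : ℤ) (N : ℕ), R ≠ 0 ∧ C R * X j ^ N ∈ Ideal.span {G, H} := by
    intro j
    exact elim_var hw (i := 1 - j) (j := j) (by omega) hG0 hG hH h
  choose R N hR hmem using key
  refine ⟨(R 0).natAbs * (R 1).natAbs, mul_ne_zero (Int.natAbs_ne_zero.2 (hR 0))
    (Int.natAbs_ne_zero.2 (hR 1)), ?_⟩
  intro p hp hpR x hpG hpH i
  have hpi : Prime (p : ℤ) := Nat.prime_iff_prime_int.1 hp
  obtain ⟨a, b, hab⟩ := Ideal.mem_span_pair.1 (hmem i)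
  have h1 := congrArg (eval x) hab
  simp only [map_add, map_mul, map_pow, eval_C, eval_X] at h1
  have h2 : (p : ℤ) ∣ R i * x i ^ N i := by
    rw [← h1]
    exact dvd_add (Dvd.dvd.mul_left hpG _) (Dvd.dvd.mul_left hpH _)
  rcases hpi.dvd_or_dvd h2 with h3 | h3
  · exfalso
    apply hpR
    have h4 : p ∣ (R i).natAbs := Int.natCast_dvd.1 h3
    fin_cases i
    · exact Dvd.dvd.mul_right h4 _
    · exact Dvd.dvd.mul_left h4 _
  · exact hpi.dvd_of_dvd_pow h3

end Pool.Agent.Helper23.Vojta
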