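import Mathlib

/-!
Lower bound for the number of integer vectors in a box whose coordinates have no common prime
factor.
-/

set_option autoImplicit false

namespace Pool.Agent.Helper23.Vojta

open Finset

variable {ι : Type} [Fintype ι] [DecidableEq ι]

theorem sum_inv_sq_le (M : ℕ) : ∑ p ∈ Icc 2 M, (1 : ℝ) / (p : ℝ) ^ 2 ≤ 3 / 4 := by
  have key : ∀ M : ℕ, 2 ≤ M → ∑ p ∈ Icc 2 M, (1 : ℝ) / (p : ℝ) ^ 2 ≤ 3 / 4 - 1 / M := by
    intro M hM
    induction M, hM using Nat.le_induction with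
    | base => norm_num
    | succ M hM ih =>
      rw [sum_Icc_succ_top (by omega)]
      have hM0 : (0 : ℝ) < M := by exact_mod_cast (by omega : 0 < M)
      have h1 : (1 : ℝ) / ((M + 1 : ℕ) : ℝ) ^ 2 ≤ 1 / M - 1 / ((M + 1 : ℕ) : ℝ) := by
        push_cast
        rw [div_sub_div _ _ hM0.ne' (by positivity), div_le_div_iff₀ (by positivity)
          (by positivity)]
        nlinarith
      linarith
  rcases Nat.lt_or_ge M 2 with h | h
  · rw [Icc_eq_empty (by omega)]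
    norm_num
  · have := key M h
    have h2 : (0 : ℝ) ≤ 1 / M := by positivity
    linarith

/-- Vectors with both distinguished coordinates divisible by `p`. -/
theorem card_both (N : ι → ℕ) {i0 i1 : ι} (h01 : i0 ≠ i1) (p : ℕ) :
    (((Fintype.piFinset fun i => Ioc 0 (N i)).filter
      (fun x => p ∣ x i0 ∧ p ∣ x i1)).card : ℝ) ≤ (∏ i, (N i : ℝ)) * (1 / (p : ℝ) ^ 2) := by
  have hsub : (Fintype.piFinset fun i => Ioc 0 (N i)).filter (fun x => p ∣ x i0 ∧ p ∣ x i1) ⊆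
      Fintype.piFinset fun i => if i = i0 ∨ i = i1 then (Ioc 0 (N i)).filter (p ∣ ·)
        else Ioc 0 (N i) := by
    intro x hx
    obtain ⟨hx1, hx2, hx3⟩ := mem_filter.1 hx
    rw [Fintype.mem_piFinset] at hx1 ⊢
    intro i
    split_ifs with h
    · rw [mem_filter]
      refine ⟨hx1 i, ?_⟩
      rcases h with rfl | rfl
      · exact hx2
      · exact hx3
    · exact hx1 i
  have h1 := card_le_card hsub
  rw [Fintype.card_piFinset] at h1
  have h2 : ((∏ i, (if i = i0 ∨ i = i1 then (Ioc 0 (N i)).filter (p ∣ ·)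
        else Ioc 0 (N i)).card : ℕ) : ℝ)
      ≤ ∏ i, ((N i : ℝ) * (if i = i0 ∨ i = i1 then 1 / (p : ℝ) else 1)) := by
    push_cast
    apply prod_le_prod (fun i _ => Nat.cast_nonneg _)
    intro i _
    split_ifs with h
    · rw [Nat.Ioc_filter_dvd_card_eq_div]
      have := Nat.cast_div_le (α := ℝ) (m := N i) (n := p)
      rw [mul_one_div]
      exact this
    · simp
  have h3 : ∏ i, ((N i : ℝ) * (if i = i0 ∨ i = i1 then 1 / (p : ℝ) else 1))
      = (∏ i, (N i : ℝ)) * (1 / (p : ℝ) ^ 2) := by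
    rw [prod_mul_distrib, prod_ite, prod_const, prod_const_one, mul_one]
    have : (univ.filter fun i => i = i0 ∨ i = i1) = {i0, i1} := by
      ext i; simp
    rw [this, card_pair h01]
    ring
  calc _ ≤ ((∏ i, (if i = i0 ∨ i = i1 then (Ioc 0 (N i)).filter (p ∣ ·)
        else Ioc 0 (N i)).card : ℕ) : ℝ) := by exact_mod_cast h1
    _ ≤ _ := h2.trans h3.le

open Classical in
theorem card_good (N : ι → ℕ) {i0 i1 : ι} (h01 : i0 ≠ i1) :
    (1 / 4 : ℝ) * (∏ i, (N i : ℝ)) ≤ (((Fintype.piFinset fun i => Ioc 0 (N i)).filter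
      (fun x => ∀ p : ℕ, p.Prime → ¬ (p ∣ x i0 ∧ p ∣ x i1))).card : ℝ) := by
  set box := Fintype.piFinset fun i => Ioc 0 (N i) with hbox
  set good := box.filter (fun x => ∀ p : ℕ, p.Prime → ¬ (p ∣ x i0 ∧ p ∣ x i1)) with hgood
  have hcov : box ⊆ good ∪ (Icc 2 (N i0)).biUnion
      (fun p => box.filter (fun x => p ∣ x i0 ∧ p ∣ x i1)) := by
    intro x hx
    rw [mem_union]
    by_cases h : ∀ p : ℕ, p.Prime → ¬ (p ∣ x i0 ∧ p ∣ x i1)
    · left
      exact mem_filter.2 ⟨hx, h⟩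
    · right
      push Not at h
      obtain ⟨p, hp, hp0, hp1⟩ := h
      rw [mem_biUnion]
      refine ⟨p, mem_Icc.2 ⟨hp.two_le, ?_⟩, mem_filter.2 ⟨hx, hp0, hp1⟩⟩
      have hxi := mem_Ioc.1 (Fintype.mem_piFinset.1 hx i0)
      exact (Nat.le_of_dvd hxi.1 hp0).trans hxi.2
  have h1 : (box.card : ℝ) ≤ (good.card : ℝ) +
      ∑ p ∈ Icc 2 (N i0), ((box.filter (fun x => p ∣ x i0 ∧ p ∣ x i1)).card : ℝ) := by
    have := (card_le_card hcov).trans (card_union_le _ _)
    have h2 := this.trans (Nat.add_le_add_left card_biUnion_le _)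
    exact_mod_cast h2
  have h2 : ∑ p ∈ Icc 2 (N i0), ((box.filter (fun x => p ∣ x i0 ∧ p ∣ x i1)).card : ℝ)
      ≤ (∏ i, (N i : ℝ)) * (3 / 4) := by
    calc _ ≤ ∑ p ∈ Icc 2 (N i0), (∏ i, (N i : ℝ)) * (1 / (p : ℝ) ^ 2) := by
          apply sum_le_sum
          intro p hp
          exact card_both N h01 p
      _ = (∏ i, (N i : ℝ)) * ∑ p ∈ Icc 2 (N i0), (1 / (p : ℝ) ^ 2) := by rw [mul_sum]
      _ ≤ _ := mul_le_mul_of_nonneg_left (sum_inv_sq_le _)
          (prod_nonneg fun i _ => Nat.cast_nonneg _)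
  have h3 : (box.card : ℝ) = ∏ i, (N i : ℝ) := by
    rw [hbox, Fintype.card_piFinset]
    push_cast
    apply prod_congr rfl
    intro i _
    rw [Nat.card_Ioc]
    simp
  rw [h3] at h1
  linarith

theorem floor_ge_half {t : ℝ} (ht : 1 ≤ t) : t / 2 ≤ (⌊t⌋₊ : ℝ) := by
  have h1 : (1 : ℝ) ≤ (⌊t⌋₊ : ℝ) := by exact_mod_cast (Nat.one_le_floor_iff t).2 ht
  have h2 : t < (⌊t⌋₊ : ℝ) + 1 := Nat.lt_floor_add_one t
  by_cases h : t < 2
  · linarith
  · linarith

end Pool.Agent.Helper23.Vojta
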