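import Pool.Agent.Helper23.Vojta.Count

/-!
The main counting theorem.
-/

set_option autoImplicit false

namespace Pool.Agent.Helper23.Vojta

open MvPolynomial Finset

variable {ι : Type} [Fintype ι] [DecidableEq ι]

omit [Fintype ι] [DecidableEq ι] in
theorem rad_pos (S : Finset ℕ) (F : MvPolynomial ι ℤ) (x : ι → ℤ) : 0 < rad S F x := by
  apply prod_pos
  intro p hp
  exact (Nat.prime_of_mem_primeFactors (mem_sdiff.1 hp).1).pos

open Classical in
theorem main_count {w : ι → ℕ} {S : Finset ℕ} (hS : ∀ p ∈ S, p.Prime)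
    {F : MvPolynomial ι ℤ} (hF : F ≠ 0) {d : ℕ} (hFd : IsWeightedHomogeneous w F d)
    {G : ι → MvPolynomial ι ℤ} (hGi : AlgebraicIndependent ℤ G) {e : ι → ℕ}
    (hG : ∀ i, IsWeightedHomogeneous w (G i) (e i)) :
    ∃ (Z : MvPolynomial ι ℤ) (m : ℕ), Z ≠ 0 ∧ F ∣ Z ∧ IsWeightedHomogeneous w Z m ∧
      ∀ (a R0 η : ℝ), 0 ≤ a → 0 ≤ R0 → 0 < η → ∃ C : ℝ, 0 ≤ C ∧ ∀ B : ℝ, 1 ≤ B →
        ∀ E : Finset (ι → ℤ), (∀ x ∈ E, (∀ i, |(x i : ℝ)| ≤ B ^ (w i)) ∧ eval x Z ≠ 0 ∧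
          (rad S F x : ℝ) ≤ R0 * B ^ a) →
          (E.card : ℝ) ≤ C * B ^ (a + η + ∑ i with ¬ G i ∣ F, (e i : ℝ)) := by
  obtain ⟨L, m, K, hL, hLm, hK⟩ := bounded_fibres G hGi hG
  refine ⟨F * L, d + m, mul_ne_zero hF hL, dvd_mul_right _ _, hFd.mul hLm, ?_⟩
  intro a R0 η ha hR0 hη
  choose c hc1 hc using fun i => abs_eval_le (hG i)
  set η' : ℝ := η / (Fintype.card ι + 1) with hη'
  have hη'0 : 0 < η' := by positivity
  choose C hC0 hC using fun i => card_vals hS (G i ∣ F) (e i) (hc1 i) ha hR0 hη'0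
  set u : ι → ℝ := fun i => if G i ∣ F then η' else (e i : ℝ) with hu
  refine ⟨K * (R0 * ∏ i, C i), by
    have : 0 ≤ ∏ i, C i := prod_nonneg fun i _ => hC0 i
    positivity, ?_⟩
  intro B hB E hE
  have hB0 : 0 < B := by linarith
  set N : ℕ := ⌊R0 * B ^ a⌋₊ with hN
  set V : ℕ → Finset (ι → ℤ) := fun r =>
    Fintype.piFinset (fun i => vals S (G i ∣ F) ⌊c i * B ^ (e i : ℝ)⌋ r) with hV
  set T : Finset (ℕ × (ι → ℤ)) := (Icc 1 N).biUnion (fun r => (V r).image (fun v => (r, v)))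
    with hT
  set Φ : (ι → ℤ) → ℕ × (ι → ℤ) := fun x => (rad S F x, fun i => eval x (G i)) with hΦ
  have himg : E.image Φ ⊆ T := by
    intro y hy
    obtain ⟨x, hx, rfl⟩ := mem_image.1 hy
    obtain ⟨hxB, hxZ, hxr⟩ := hE x hx
    rw [map_mul] at hxZ
    have hFx : eval x F ≠ 0 := left_ne_zero_of_mul hxZ
    rw [hT, mem_biUnion]
    refine ⟨rad S F x, mem_Icc.2 ⟨rad_pos S F x, Nat.le_floor hxr⟩, ?_⟩
    rw [mem_image]
    refine ⟨fun i => eval x (G i), ?_, rfl⟩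
    rw [hV, Fintype.mem_piFinset]
    intro i
    unfold vals
    rw [mem_filter]
    have hb := hc i B hB x hxB
    rw [abs_le] at hb
    refine ⟨mem_Icc.2 ⟨?_, Int.le_floor.2 hb.2⟩, ?_⟩
    · have : -(eval x (G i)) ≤ ⌊c i * B ^ (e i : ℝ)⌋ := by
        rw [Int.le_floor]
        push_cast
        linarith [hb.1]
      linarith
    · rintro ⟨H, hH⟩
      have hFx' : eval x F = eval x (G i) * eval x H := by rw [hH, map_mul]
      refine ⟨?_, ?_⟩
      · intro h0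
        rw [h0, zero_mul] at hFx'
        exact hFx hFx'
      · intro p hp hpv
        by_cases hpS : p ∈ S
        · exact Or.inl hpS
        · right
          have h1 : (p : ℤ) ∣ eval x F := by rw [hFx']; exact Dvd.dvd.mul_right hpv _
          have h2 : p ∈ (eval x F).natAbs.primeFactors :=
            Nat.mem_primeFactors.2 ⟨hp, Int.natCast_dvd.1 h1, Int.natAbs_ne_zero.2 hFx⟩
          exact dvd_prod_of_mem _ (mem_sdiff.2 ⟨h2, hpS⟩)
  have hfib : E.card ≤ K * (E.image Φ).card := by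
    apply card_le_mul_card_image
    rintro ⟨r, v⟩ _
    obtain ⟨Tv, hTv, hTx⟩ := hK v
    refine le_trans (card_le_card ?_) hTv
    intro x hx
    obtain ⟨hxE, hxΦ⟩ := mem_filter.1 hx
    obtain ⟨_, hxZ, _⟩ := hE x hxE
    rw [map_mul] at hxZ
    apply hTx x (right_ne_zero_of_mul hxZ)
    intro i
    have := congrArg Prod.snd hxΦ
    exact congrFun this i
  have hTcard : (T.card : ℝ) ≤ ∑ r ∈ Icc 1 N, ((V r).card : ℝ) := by
    have h1 : T.card ≤ ∑ r ∈ Icc 1 N, ((V r).image (fun v => (r, v))).card := card_biUnion_le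
    have h2 : ∑ r ∈ Icc 1 N, ((V r).image (fun v => (r, v))).card ≤ ∑ r ∈ Icc 1 N, (V r).card :=
      sum_le_sum fun r _ => card_image_le
    exact_mod_cast h1.trans h2
  have hVr : ∀ r ∈ Icc 1 N, ((V r).card : ℝ) ≤ ∏ i, (C i * B ^ (u i)) := by
    intro r hr
    obtain ⟨hr1, hrN⟩ := mem_Icc.1 hr
    rw [hV, Fintype.card_piFinset]
    push_cast
    apply prod_le_prod (fun i _ => Nat.cast_nonneg _)
    intro i _
    apply hC i B hB r (by omega)
    calc (r : ℝ) ≤ (N : ℝ) := by exact_mod_cast hrN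
      _ ≤ R0 * B ^ a := Nat.floor_le (by positivity)
  have hsumV : ∑ r ∈ Icc 1 N, ((V r).card : ℝ) ≤ (R0 * B ^ a) * ∏ i, (C i * B ^ (u i)) := by
    refine (sum_le_sum hVr).trans ?_
    rw [sum_const, nsmul_eq_mul, Nat.card_Icc, Nat.add_sub_cancel]
    apply mul_le_mul_of_nonneg_right (Nat.floor_le (by positivity))
    exact prod_nonneg fun i _ => mul_nonneg (hC0 i) (Real.rpow_nonneg hB0.le _)
  have hprod : ∏ i, (C i * B ^ (u i)) = (∏ i, C i) * B ^ (∑ i, u i) := by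
    rw [prod_mul_distrib, Real.rpow_sum_of_pos hB0]
  have husum : ∑ i, u i ≤ η + ∑ i with ¬ G i ∣ F, (e i : ℝ) := by
    rw [hu, sum_ite, sum_const, nsmul_eq_mul]
    have h1 : ((#{i | G i ∣ F} : ℕ) : ℝ) * η' ≤ η := by
      have h2 : ((#{i | G i ∣ F} : ℕ) : ℝ) ≤ Fintype.card ι + 1 := by
        have : #{i | G i ∣ F} ≤ Fintype.card ι := card_le_univ _
        have h3 : ((#{i | G i ∣ F} : ℕ) : ℝ) ≤ (Fintype.card ι : ℝ) := by exact_mod_cast this
        linarith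
      calc _ ≤ ((Fintype.card ι : ℝ) + 1) * η' := mul_le_mul_of_nonneg_right h2 hη'0.le
        _ = η := by rw [hη']; field_simp
    linarith
  have h1 : (E.card : ℝ) ≤ K * (T.card : ℝ) := by
    have := hfib.trans (Nat.mul_le_mul_left K (card_le_card himg))
    exact_mod_cast this
  calc (E.card : ℝ) ≤ K * (T.card : ℝ) := h1
    _ ≤ K * ((R0 * B ^ a) * ∏ i, (C i * B ^ (u i))) :=
        mul_le_mul_of_nonneg_left (hTcard.trans hsumV) (Nat.cast_nonneg _)
    _ = K * (R0 * ∏ i, C i) * B ^ (a + ∑ i, u i) := by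
        rw [hprod, Real.rpow_add hB0]; ring
    _ ≤ K * (R0 * ∏ i, C i) * B ^ (a + η + ∑ i with ¬ G i ∣ F, (e i : ℝ)) := by
        have : 0 ≤ ∏ i, C i := prod_nonneg fun i _ => hC0 i
        apply mul_le_mul_of_nonneg_left _ (by positivity)
        apply Real.rpow_le_rpow_of_exponent_le hB
        linarith

end Pool.Agent.Helper23.Vojta
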