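import Pool.Agent.Helper23.Vojta.Defs
import Pool.Agent.Helper23.Vojta.Main
import Pool.Agent.Helper23.Vojta.Lower

/-!
Translation between counting vectors and integral points of bounded height.
-/

set_option autoImplicit false

namespace Pool.Agent.Helper23.Vojta

open MvPolynomial

theorem height_le_iff {n : ℕ} {w : Fin (n + 1) → ℕ} (hw : ∀ i, 1 ≤ w i) (x : Fin (n + 1) → ℤ)
    {B : ℝ} (hB : 0 ≤ B) : height w x ≤ B ↔ ∀ i, |(x i : ℝ)| ≤ B ^ (w i) := by
  unfold height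
  rw [Finset.sup'_le_iff]
  constructor
  · intro h i
    have h1 := h i (Finset.mem_univ i)
    have hwi : (w i : ℝ) ≠ 0 := by exact_mod_cast (by have := hw i; omega : w i ≠ 0)
    have h2 := Real.rpow_le_rpow (Real.rpow_nonneg (abs_nonneg _) _) h1
      (Nat.cast_nonneg (w i) : (0 : ℝ) ≤ w i)
    rw [← Real.rpow_mul (abs_nonneg _), one_div, inv_mul_cancel₀ hwi, Real.rpow_one,
      Real.rpow_natCast] at h2
    exact h2
  · intro h i _
    have hwi : (w i : ℝ) ≠ 0 := by exact_mod_cast (by have := hw i; omega : w i ≠ 0)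
    have h2 := Real.rpow_le_rpow (abs_nonneg _) (h i)
      (by positivity : (0 : ℝ) ≤ 1 / (w i : ℝ))
    rw [← Real.rpow_natCast, ← Real.rpow_mul hB, mul_one_div, div_self hwi, Real.rpow_one] at h2
    exact h2

theorem truncatedCount_eq {n : ℕ} (S : Finset ℕ) (F : MvPolynomial (Fin (n + 1)) ℤ)
    (x : Fin (n + 1) → ℤ) : truncatedCount S F x = Real.log (rad S F x) := by
  unfold truncatedCount rad
  rw [Nat.cast_prod, Real.log_prod]
  intro p hp
  exact_mod_cast (Nat.prime_of_mem_primeFactors (Finset.mem_sdiff.1 hp).1).ne_zero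

theorem finite_box {n : ℕ} {w : Fin (n + 1) → ℕ} (hw : ∀ i, 1 ≤ w i) (B : ℝ) (hB : 0 ≤ B) :
    {x : Fin (n + 1) → ℤ | height w x ≤ B}.Finite := by
  have h : {x : Fin (n + 1) → ℤ | height w x ≤ B} ⊆
      Set.pi Set.univ (fun i => Set.Icc (-⌊B ^ (w i)⌋) ⌊B ^ (w i)⌋) := by
    intro x hx i _
    have h1 := (height_le_iff hw x hB).1 hx i
    rw [abs_le] at h1
    refine ⟨?_, Int.le_floor.2 h1.2⟩
    have : -(x i) ≤ ⌊B ^ (w i)⌋ := by
      rw [Int.le_floor]
      push_cast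
      linarith [h1.1]
    linarith
  exact (Set.Finite.pi' fun i => Set.finite_Icc _ _).subset (by
    intro x hx i
    exact h hx i (Set.mem_univ i))

open Classical in
/-- The exceptional points outside `Z`. -/
theorem exceptional_le {n : ℕ} (w : Fin (n + 1) → ℕ) (hw : ∀ i, 1 ≤ w i)
    (S : Finset ℕ) (hS : ∀ p ∈ S, p.Prime)
    (F : MvPolynomial (Fin (n + 1)) ℤ) (hF : F ≠ 0) (d : ℕ) (hFd : IsWeightedHomogeneous w F d)
    (G : Fin (n + 1) → MvPolynomial (Fin (n + 1)) ℤ) (hGi : AlgebraicIndependent ℤ G)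
    (e : Fin (n + 1) → ℕ) (hG : ∀ i, IsWeightedHomogeneous w (G i) (e i)) :
    ∃ (Z : MvPolynomial (Fin (n + 1)) ℤ) (m : ℕ),
      Z ≠ 0 ∧ F ∣ Z ∧ IsWeightedHomogeneous w Z m ∧
      ∀ δ η c : ℝ, 0 < η → (∑ i, w i : ℕ) + δ ≤ d → ∃ C : ℝ, 0 ≤ C ∧ ∀ B : ℝ, 1 ≤ B →
        ({x : Fin (n + 1) → ℤ | IsIntegralPoint w S x ∧ height w x ≤ B ∧ eval x Z ≠ 0 ∧
            truncatedCount S F x
              < (d - (∑ i, w i : ℕ) - δ) * Real.log (height w x) - c}.ncard : ℝ)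
          ≤ C * B ^ (d - (∑ i, w i : ℕ) - δ + η + (∑ i with ¬ G i ∣ F, e i : ℕ) : ℝ) := by
  obtain ⟨Z, m, hZ, hFZ, hZm, hmain⟩ :=
    main_count hS hF hFd hGi hG
  refine ⟨Z, m, hZ, hFZ, hZm, ?_⟩
  intro δ η c hη hd
  have ha : 0 ≤ (d : ℝ) - (∑ i, w i : ℕ) - δ := by linarith
  obtain ⟨C, hC0, hC⟩ := hmain (d - (∑ i, w i : ℕ) - δ) (Real.exp (-c)) η ha
    (Real.exp_pos _).le hη
  refine ⟨C, hC0, ?_⟩
  intro B hB
  have hB0 : 0 < B := by linarith
  set E : Set (Fin (n + 1) → ℤ) := {x | IsIntegralPoint w S x ∧ height w x ≤ B ∧ eval x Z ≠ 0 ∧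
      truncatedCount S F x < (d - (∑ i, w i : ℕ) - δ) * Real.log (height w x) - c} with hE
  have hfin : E.Finite := (finite_box hw B hB0.le).subset (fun x hx => hx.2.1)
  rw [Set.ncard_eq_toFinset_card _ hfin]
  have h1 := hC B hB hfin.toFinset (by
    intro x hx
    rw [Set.Finite.mem_toFinset] at hx
    obtain ⟨_, hxB, hxZ, hxN⟩ := hx
    refine ⟨(height_le_iff hw x hB0.le).1 hxB, hxZ, ?_⟩
    rw [truncatedCount_eq] at hxN
    have hr : (0 : ℝ) < (rad S F x : ℝ) := by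
      exact_mod_cast rad_pos S F x
    have hlog : Real.log (height w x) ≤ Real.log B := by
      rcases le_or_gt (height w x) 0 with h0 | h0
      · have h00 : 0 ≤ height w x := by
          unfold height
          exact (Real.rpow_nonneg (abs_nonneg _) _).trans
            (Finset.le_sup' (fun i => |(x i : ℝ)| ^ (1 / (w i : ℝ))) (Finset.mem_univ 0))
        have : height w x = 0 := le_antisymm h0 h00
        rw [this, Real.log_zero]
        exact Real.log_nonneg hB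
      · exact Real.log_le_log h0 hxB
    rw [← Real.log_le_log_iff hr (by positivity), Real.log_mul (Real.exp_pos _).ne'
      (Real.rpow_pos_of_pos hB0 _).ne', Real.log_exp, Real.log_rpow hB0]
    nlinarith [mul_le_mul_of_nonneg_left hlog ha])
  refine h1.trans (le_of_eq ?_)
  push_cast
  rfl

/-- There are at least `c * B ^ |w|` integral points of height at most `B`. -/
theorem points_ge {n : ℕ} (hn : 1 ≤ n) (w : Fin (n + 1) → ℕ) (hw : ∀ i, 1 ≤ w i)
    (S : Finset ℕ) (hS : ∀ p ∈ S, p.Prime) :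
    ∃ c : ℝ, 0 < c ∧ ∀ B : ℝ, 1 ≤ B →
      c * B ^ (∑ i, w i) ≤
        ({x : Fin (n + 1) → ℤ | IsIntegralPoint w S x ∧ height w x ≤ B}.ncard : ℝ) := by
  classical
  set N : ℝ → Fin (n + 1) → ℕ := fun B i => ⌊B ^ (w i)⌋₊ with hN
  refine ⟨(1 / 4) * ∏ _i : Fin (n + 1), (1 / 2 : ℝ), by positivity, ?_⟩
  intro B hB
  have hB0 : 0 < B := by linarith
  have h01 : (0 : Fin (n + 1)) ≠ Fin.last n := by
    intro h
    have := congrArg Fin.val h
    simp at this
    omega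
  have hg := card_good (N B) h01
  set good := (Fintype.piFinset fun i => Finset.Ioc 0 (N B i)).filter
    (fun x => ∀ p : ℕ, p.Prime → ¬ (p ∣ x 0 ∧ p ∣ x (Fin.last n))) with hgood
  have hcast : Function.Injective
      (fun (x : Fin (n + 1) → ℕ) => (fun i => (x i : ℤ) : Fin (n + 1) → ℤ)) := by
    intro x y hxy
    funext i
    have h : ((x i : ℕ) : ℤ) = ((y i : ℕ) : ℤ) := congrFun hxy i
    exact_mod_cast h
  have hsub : ((good.image (fun (x : Fin (n + 1) → ℕ) => (fun i => (x i : ℤ)))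
      : Finset (Fin (n + 1) → ℤ)) : Set (Fin (n + 1) → ℤ)) ⊆
      {x | IsIntegralPoint w S x ∧ height w x ≤ B} := by
    intro y hy
    obtain ⟨x, hx, rfl⟩ := Finset.mem_image.1 (Finset.mem_coe.1 hy)
    obtain ⟨hx1, hx2⟩ := Finset.mem_filter.1 hx
    refine ⟨⟨?_, ?_⟩, ?_⟩
    · intro p hp _
      by_contra hcon
      push Not at hcon
      exact hx2 p hp ⟨by exact_mod_cast hcon 0, by exact_mod_cast hcon (Fin.last n)⟩
    · intro p hp
      by_contra hcon
      push Not at hcon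
      have key : ∀ i, p ∣ x i := by
        intro i
        have h1 : ((p : ℤ)) ∣ (x i : ℤ) :=
          (dvd_pow_self _ (by have := hw i; omega)).trans (hcon i)
        exact_mod_cast h1
      exact hx2 p (hS p hp) ⟨key 0, key (Fin.last n)⟩
    · rw [height_le_iff hw _ hB0.le]
      intro i
      have h1 := (Finset.mem_Ioc.1 (Fintype.mem_piFinset.1 hx1 i)).2
      have h2 : (x i : ℝ) ≤ (N B i : ℝ) := by exact_mod_cast h1
      have h3 : (N B i : ℝ) ≤ B ^ (w i) := Nat.floor_le (by positivity)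
      push_cast
      rw [abs_of_nonneg (Nat.cast_nonneg _)]
      exact h2.trans h3
  have hfin : {x : Fin (n + 1) → ℤ | IsIntegralPoint w S x ∧ height w x ≤ B}.Finite :=
    (finite_box hw B hB0.le).subset (fun x hx => hx.2)
  have h1 := Set.ncard_le_ncard hsub hfin
  rw [Set.ncard_coe_finset, Finset.card_image_of_injective _ hcast] at h1
  have h2 : (∏ _i : Fin (n + 1), (1 / 2 : ℝ)) * B ^ (∑ i, w i) ≤ ∏ i, (N B i : ℝ) := by
    rw [← Finset.prod_pow_eq_pow_sum, ← Finset.prod_mul_distrib]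
    apply Finset.prod_le_prod (fun i _ => by positivity)
    intro i _
    have := floor_ge_half (one_le_pow₀ hB (n := w i))
    rw [hN]
    linarith
  calc (1 / 4) * (∏ _i : Fin (n + 1), (1 / 2 : ℝ)) * B ^ (∑ i, w i)
      = (1 / 4) * ((∏ _i : Fin (n + 1), (1 / 2 : ℝ)) * B ^ (∑ i, w i)) := by ring
    _ ≤ (1 / 4) * ∏ i, (N B i : ℝ) := mul_le_mul_of_nonneg_left h2 (by norm_num)
    _ ≤ (good.card : ℝ) := by convert hg
    _ ≤ _ := by exact_mod_cast h1

open Classical in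
/-- Outside a proper Zariski-closed `Z ⊇ D` (depending on `F` and `G` only), the proportion of the
integral points of height at most `B` at which Vojta's inequality
`N^(1)(D, x) ≥ h_{K_X(D)}(x) - δ h(x) + c` fails is
`O(B ^ -(2 |w| + δ - η - d - ∑ (degrees of the G i not dividing F)))`. -/
theorem ws_main {n : ℕ} (hn : 1 ≤ n) (w : Fin (n + 1) → ℕ) (hw : ∀ i, 1 ≤ w i)
    (S : Finset ℕ) (hS : ∀ p ∈ S, p.Prime)
    (F : MvPolynomial (Fin (n + 1)) ℤ) (hF : F ≠ 0) (d : ℕ) (hFd : IsWeightedHomogeneous w F d)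
    (G : Fin (n + 1) → MvPolynomial (Fin (n + 1)) ℤ) (hGi : AlgebraicIndependent ℤ G)
    (e : Fin (n + 1) → ℕ) (hG : ∀ i, IsWeightedHomogeneous w (G i) (e i)) :
    ∃ (Z : MvPolynomial (Fin (n + 1)) ℤ) (m : ℕ),
      Z ≠ 0 ∧ F ∣ Z ∧ IsWeightedHomogeneous w Z m ∧
      ∀ δ η c : ℝ, 0 < η → (∑ i, w i : ℕ) + δ ≤ d → ∃ C : ℝ, ∀ B : ℝ, 1 ≤ B →
        ({x : Fin (n + 1) → ℤ | IsIntegralPoint w S x ∧ height w x ≤ B ∧ eval x Z ≠ 0 ∧
            truncatedCount S F x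
              < (d - (∑ i, w i : ℕ) - δ) * Real.log (height w x) + c}.ncard : ℝ)
          ≤ C * B ^ (-(2 * (∑ i, w i : ℕ) + δ - η - d - (∑ i with ¬ G i ∣ F, e i : ℕ)) : ℝ) *
            ({x : Fin (n + 1) → ℤ | IsIntegralPoint w S x ∧ height w x ≤ B}.ncard : ℝ) := by
  obtain ⟨Z, m, hZ, hFZ, hZm, h⟩ := exceptional_le w hw S hS F hF d hFd G hGi e hG
  obtain ⟨c0, hc0, hpts⟩ := points_ge hn w hw S hS
  refine ⟨Z, m, hZ, hFZ, hZm, ?_⟩
  intro δ η c hη hd
  obtain ⟨C, hC0, hC⟩ := h δ η (-c) hη hd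
  refine ⟨C / c0, ?_⟩
  intro B hB
  have hB0 : 0 < B := by linarith
  have h1 := hC B hB
  simp only [sub_neg_eq_add] at h1
  refine h1.trans ?_
  have h2 := hpts B hB
  have h3 : B ^ (d - (∑ i, w i : ℕ) - δ + η + (∑ i with ¬ G i ∣ F, e i : ℕ) : ℝ)
      = B ^ (-(2 * (∑ i, w i : ℕ) + δ - η - d - (∑ i with ¬ G i ∣ F, e i : ℕ)) : ℝ) *
        B ^ (∑ i, w i) := by
    rw [← Real.rpow_natCast, ← Real.rpow_add hB0]
    congr 1
    ring
  rw [h3]
  have h4 : 0 ≤ B ^ (-(2 * (∑ i, w i : ℕ) + δ - η - d - (∑ i with ¬ G i ∣ F, e i : ℕ)) : ℝ) :=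
    Real.rpow_nonneg hB0.le _
  have h5 : B ^ (∑ i, w i) ≤
      ({x : Fin (n + 1) → ℤ | IsIntegralPoint w S x ∧ height w x ≤ B}.ncard : ℝ) / c0 := by
    rw [le_div_iff₀ hc0]
    linarith
  calc _ ≤ C * (B ^ (-(2 * (∑ i, w i : ℕ) + δ - η - d - (∑ i with ¬ G i ∣ F, e i : ℕ)) : ℝ) *
        (({x : Fin (n + 1) → ℤ | IsIntegralPoint w S x ∧ height w x ≤ B}.ncard : ℝ) / c0)) := by
        gcongr
    _ = _ := by ring

end Pool.Agent.Helper23.Vojta
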