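import Mathlib
import Pool.Agent.Helper23.Vojta.Elim
import Pool.Agent.Helper23.Vojta.WS
set_option autoImplicit false
namespace Pool.Agent.Helper23.Vojta
open MvPolynomial

theorem not_dvd_const {w : Fin 2 → ℕ} {G : MvPolynomial (Fin 2) ℤ} {e : ℕ} (he : 0 < e)
    (hG : IsWeightedHomogeneous w G e) {c : ℤ} (hc : c ≠ 0) : ¬ G ∣ C c := by
  rintro ⟨H, hH⟩
  have hC : (C c : MvPolynomial (Fin 2) ℤ) ≠ 0 := C_ne_zero.2 hc
  have hG0 : G ≠ 0 := by
    rintro rfl
    rw [zero_mul] at hH
    exact hC hH
  have hH0 : H ≠ 0 := by
    rintro rfl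
    rw [mul_zero] at hH
    exact hC hH
  have h1 := totalDegree_mul_of_isDomain hG0 hH0
  rw [← hH, totalDegree_C] at h1
  have h2 : G.totalDegree = 0 := by omega
  have h3 := (totalDegree_eq_zero_iff_eq_C).1 h2
  have h4 : IsWeightedHomogeneous w G 0 := by
    rw [h3]
    exact isWeightedHomogeneous_C _ _
  have h5 := IsWeightedHomogeneous.inj_right hG0 hG h4
  omega

theorem hom_rel_zero {w e : Fin 2 → ℕ} (he : ∀ i, 0 < e i) (G : Fin 2 → MvPolynomial (Fin 2) ℤ)
    (hG : ∀ i, IsWeightedHomogeneous w (G i) (e i)) (hrel : IsRelPrime (G 0) (G 1))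
    (hG1 : G 1 ≠ 0) : ∀ (k : ℕ) (P : MvPolynomial (Fin 2) ℤ), IsWeightedHomogeneous e P k →
      aeval G P = 0 → P = 0 := by
  classical
  intro k
  induction k using Nat.strong_induction_on with
  | _ k ih =>
    intro P hP h0
    by_contra hPne
    set P' := divMonomial P (Finsupp.single 1 1) with hP'
    set P0 := modMonomial P (Finsupp.single 1 1) with hP0
    have hdec : P = X 1 * P' + P0 := (divMonomial_add_modMonomial_single P 1).symm
    have hev : G 1 * aeval G P' + aeval G P0 = 0 := by
      have := congrArg (aeval G) hdec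
      rw [h0, map_add, map_mul, aeval_X] at this
      exact this.symm
    by_cases hz : P0 = 0
    · rw [hz, map_zero, add_zero] at hev
      have h1 : aeval G P' = 0 := (mul_eq_zero.1 hev).resolve_left hG1
      have hP'0 : P' ≠ 0 := by
        intro h2
        apply hPne
        rw [hdec, h2, hz]
        ring
      have h2 : ∀ s, coeff s P' ≠ 0 → e 1 + Finsupp.weight e s = k := by
        intro s hs
        rw [hP', coeff_divMonomial] at hs
        have := hP hs
        rw [map_add, Finsupp.weight_single] at this
        simpa using this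
      obtain ⟨s, hs⟩ := exists_coeff_ne_zero hP'0
      have h3 := h2 s hs
      have h4 := he 1
      refine hP'0 (ih (k - e 1) (by omega) P' ?_ h1)
      intro s hs
      have := h2 s hs
      omega
    · obtain ⟨s, hs⟩ := exists_coeff_ne_zero hz
      have hsupp : ∀ t, coeff t P0 ≠ 0 → t = Finsupp.single 0 (t 0) ∧ t 0 * e 0 = k := by
        intro t ht
        have hle : ¬ Finsupp.single (1 : Fin 2) 1 ≤ t := by
          intro hle
          exact ht (coeff_modMonomial_of_le P hle)
        have ht1 : t 1 = 0 := by
          by_contra hne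
          apply hle
          rw [Finsupp.single_le_iff]
          omega
        have h5 : t = Finsupp.single 0 (t 0) := by
          ext l
          fin_cases l
          · simp
          · simp [ht1]
        refine ⟨h5, ?_⟩
        rw [hP0, coeff_modMonomial_of_not_le P hle] at ht
        have h6 := hP ht
        rw [h5, Finsupp.weight_single] at h6
        simpa using h6
      have hP0eq : P0 = C (coeff s P0) * X 0 ^ (s 0) := by
        ext t
        rw [X_pow_eq_monomial, C_mul_monomial, mul_one, coeff_monomial]
        split_ifs with hst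
        · rw [← hst, ← (hsupp s hs).1]
        · by_contra hne
          apply hst
          obtain ⟨h7, h8⟩ := hsupp t hne
          have h9 : t 0 = s 0 := Nat.eq_of_mul_eq_mul_right (he 0) (h8.trans (hsupp s hs).2.symm)
          rw [h7, h9]
      have h10 : G 1 ∣ C (coeff s P0) * G 0 ^ (s 0) := by
        refine ⟨-aeval G P', ?_⟩
        have h11 : aeval G P0 = C (coeff s P0) * G 0 ^ (s 0) := by
          conv_lhs => rw [hP0eq]
          simp
        rw [← h11]
        linear_combination hev
      have h12 : IsRelPrime (G 1) (G 0 ^ (s 0)) := hrel.symm.pow_right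
      exact not_dvd_const (he 1) (hG 1) hs (h12.dvd_of_dvd_mul_right h10)

theorem algInd {w e : Fin 2 → ℕ} (he : ∀ i, 0 < e i) (G : Fin 2 → MvPolynomial (Fin 2) ℤ)
    (hG : ∀ i, IsWeightedHomogeneous w (G i) (e i)) (hrel : IsRelPrime (G 0) (G 1))
    (hG1 : G 1 ≠ 0) : AlgebraicIndependent ℤ G := by
  rw [algebraicIndependent_iff]
  intro Q h0
  by_contra hQ
  obtain ⟨d, hd⟩ : ∃ d, coeff d Q ≠ 0 := exists_coeff_ne_zero hQ
  have hsum := sum_weightedHomogeneousComponent e Q
  rw [finsum_eq_sum _ (weightedHomogeneousComponent_finsupp Q)] at hsum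
  set s := (weightedHomogeneousComponent_finsupp (w := e) Q).toFinset with hs
  have h1 : ∑ m ∈ s, aeval G (weightedHomogeneousComponent e m Q) = 0 := by
    rw [← map_sum, hsum, h0]
  have h2 := congrArg (weightedHomogeneousComponent w (Finsupp.weight e d)) h1
  rw [map_sum, map_zero] at h2
  have h3 : aeval G (weightedHomogeneousComponent e (Finsupp.weight e d) Q) = 0 := by
    rw [Finset.sum_eq_single (Finsupp.weight e d)] at h2
    · rwa [IsWeightedHomogeneous.weightedHomogeneousComponent_same
        (aeval_hom hG (weightedHomogeneousComponent_isWeightedHomogeneous _ _))] at h2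
    · intro m _ hm
      exact IsWeightedHomogeneous.weightedHomogeneousComponent_ne _
        (aeval_hom hG (weightedHomogeneousComponent_isWeightedHomogeneous _ _)) hm.symm
    · intro hm
      have : weightedHomogeneousComponent e (Finsupp.weight e d) Q = 0 := by
        by_contra h
        exact hm ((Set.Finite.mem_toFinset _).2 h)
      rw [this, map_zero, map_zero]
  have h4 := hom_rel_zero he G hG hrel hG1 _ _
    (weightedHomogeneousComponent_isWeightedHomogeneous _ _) h3
  have h5 := congrArg (coeff d) h4
  rw [coeff_weightedHomogeneousComponent, if_pos rfl] at h5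
  exact hd (by simpa using h5)

end Pool.Agent.Helper23.Vojta
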