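import Mathlib
import Pool.Agent.Helper23.Vojta.Indep
set_option autoImplicit false
namespace Pool.Agent.Helper23.Vojta
open MvPolynomial

theorem prime_X (i : Fin 2) : Prime (X i : MvPolynomial (Fin 2) ℤ) :=
  X_prime

open Classical in
theorem mem_vals {S : Finset ℕ} {P : Prop} {M : ℤ} {r : ℕ} {v : ℤ} :
    v ∈ vals S P M r ↔ v ∈ Finset.Icc (-M) M ∧
      (P → v ≠ 0 ∧ ∀ p : ℕ, p.Prime → (p : ℤ) ∣ v → p ∈ S ∨ p ∣ r) := by
  unfold vals
  rw [Finset.mem_filter]

theorem coord_primes {w : Fin 2 → ℕ} (hw : ∀ i, 1 ≤ w i) {S : Finset ℕ}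
    {L : MvPolynomial (Fin 2) ℤ} (hL : L ≠ 0) {m : ℕ} (hLm : IsWeightedHomogeneous w L m)
    (i : Fin 2) : ∃ R : ℕ, R ≠ 0 ∧ ∀ x : Fin 2 → ℤ, IsIntegralPoint w S x → eval x L = 0 →
      x i = 0 ∨ ∀ p : ℕ, p.Prime → (p : ℤ) ∣ x i → p ∈ S ∨ p ∣ R := by
  have hX := prime_X i
  obtain ⟨L', hL', hnd⟩ :=
    (FiniteMultiplicity.of_prime_left hX hL).exists_eq_pow_mul_and_not_dvd
  set s := multiplicity (X i) L with hs
  have hrel : IsRelPrime (X i : MvPolynomial (Fin 2) ℤ) L' :=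
    hX.irreducible.isRelPrime_iff_not_dvd.2 hnd
  have hhom : IsWeightedHomogeneous w L' (m - s * w i) := by
    intro d hd
    have h1 : coeff (Finsupp.single i s + d) L ≠ 0 := by
      rw [hL', X_pow_eq_monomial, coeff_monomial_mul, one_mul]
      exact hd
    have h2 := hLm h1
    rw [map_add, Finsupp.weight_single] at h2
    simp only [smul_eq_mul] at h2
    omega
  obtain ⟨R, hR, h⟩ := common_primes hw hX.ne_zero (isWeightedHomogeneous_X ℤ w i) hhom hrel
  refine ⟨R, hR, ?_⟩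
  intro x hx hLx
  by_cases hxi : x i = 0
  · exact Or.inl hxi
  · right
    intro p hp hpx
    by_contra hcon
    push Not at hcon
    obtain ⟨hpS, hpR⟩ := hcon
    have h1 : eval x L' = 0 := by
      rw [hL', map_mul, map_pow, eval_X] at hLx
      exact (mul_eq_zero.1 hLx).resolve_left (pow_ne_zero _ hxi)
    obtain ⟨j, hj⟩ := hx.1 p hp hpS
    exact hj (h p hp hpR x (by simpa using hpx) (by rw [h1]; exact dvd_zero _) j)

open Classical in
theorem count_on_Z {w : Fin 2 → ℕ} (hw : ∀ i, 1 ≤ w i) {S : Finset ℕ} (hS : ∀ p ∈ S, p.Prime)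
    {L : MvPolynomial (Fin 2) ℤ} (hL : L ≠ 0) {m : ℕ} (hLm : IsWeightedHomogeneous w L m)
    {η : ℝ} (hη : 0 < η) : ∃ C : ℝ, 0 ≤ C ∧ ∀ B : ℝ, 1 ≤ B → ∀ E : Finset (Fin 2 → ℤ),
      (∀ x ∈ E, IsIntegralPoint w S x ∧ (∀ i, |(x i : ℝ)| ≤ B ^ (w i)) ∧ eval x L = 0) →
        (E.card : ℝ) ≤ C * B ^ η := by
  choose R hR hRx using coord_primes (S := S) hw hL hLm
  have hc : ∀ i : Fin 2, ∃ C : ℝ, 0 ≤ C ∧ ∀ {P : Prop}, P → ∀ (T : ℝ), 0 ≤ T → ∀ r : ℕ, r ≠ 0 →
      ((vals S P ⌊T⌋ r).card : ℝ) ≤ C * (T ^ (η / (2 * w i)) * (r : ℝ) ^ (η / (2 * w i))) := by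
    intro i
    have hwi : (0 : ℝ) < w i := by exact_mod_cast hw i
    exact card_vals_true (by positivity) hS
  choose C hC0 hC using hc
  refine ⟨∏ i, (1 + C i * (R i : ℝ) ^ (η / (2 * w i))), Finset.prod_nonneg (fun i _ => by
    have := hC0 i
    positivity), ?_⟩
  intro B hB E hE
  have hB0 : 0 < B := by linarith
  have hsub : E ⊆ Fintype.piFinset (fun i => insert 0 (vals S True ⌊B ^ (w i)⌋ (R i))) := by
    intro x hx
    obtain ⟨hx1, hx2, hx3⟩ := hE x hx
    rw [Fintype.mem_piFinset]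
    intro i
    rw [Finset.mem_insert]
    rcases hRx i x hx1 hx3 with h | h
    · exact Or.inl h
    · by_cases h0 : x i = 0
      · exact Or.inl h0
      right
      rw [mem_vals]
      have hb := hx2 i
      rw [abs_le] at hb
      refine ⟨Finset.mem_Icc.2 ⟨?_, Int.le_floor.2 hb.2⟩, fun _ => ⟨h0, h⟩⟩
      have : -(x i) ≤ ⌊B ^ (w i)⌋ := by
        rw [Int.le_floor]
        push_cast
        linarith [hb.1]
      linarith
  have h1 : (E.card : ℝ) ≤ ∏ i, ((insert 0 (vals S True ⌊B ^ (w i)⌋ (R i))).card : ℝ) := by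
    have := Finset.card_le_card hsub
    rw [Fintype.card_piFinset] at this
    exact_mod_cast this
  refine h1.trans ?_
  have h2 : ∏ i : Fin 2, B ^ (η / 2) = B ^ η := by
    rw [Finset.prod_const, Finset.card_univ, Fintype.card_fin, ← Real.rpow_natCast,
      ← Real.rpow_mul hB0.le]
    congr 1
    push_cast
    ring
  rw [← h2, ← Finset.prod_mul_distrib]
  apply Finset.prod_le_prod (fun i _ => Nat.cast_nonneg _)
  intro i _
  have hwi : (0 : ℝ) < w i := by exact_mod_cast hw i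
  have h3 : ((insert 0 (vals S True ⌊B ^ (w i)⌋ (R i))).card : ℝ)
      ≤ (vals S True ⌊B ^ (w i)⌋ (R i)).card + 1 := by
    exact_mod_cast Finset.card_insert_le _ _
  have h4 := hC i (P := True) trivial (B ^ (w i)) (by positivity) (R i) (hR i)
  have h5 : (B ^ (w i)) ^ (η / (2 * w i)) = B ^ (η / 2) := by
    rw [← Real.rpow_natCast, ← Real.rpow_mul hB0.le]
    congr 1
    field_simp
  rw [h5] at h4
  have h6 : 1 ≤ B ^ (η / 2) := Real.one_le_rpow hB (by positivity)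
  nlinarith

theorem two_small {k : ℕ} (hk : 2 ≤ k) (a : Fin k → ℝ) (ha : ∀ i, 1 ≤ a i) {R : ℝ}
    (hR : ∏ i, a i ≤ R) : ∃ i j, i ≠ j ∧ a i * a j ≤ R ^ (2 / (k : ℝ)) := by
  have hk0 : (0 : ℝ) < k := by exact_mod_cast (by omega : 0 < k)
  have hprod1 : 1 ≤ ∏ i, a i := by
    calc (1 : ℝ) = ∏ _i : Fin k, (1 : ℝ) := by simp
      _ ≤ _ := Finset.prod_le_prod (fun _ _ => zero_le_one) (fun i _ => ha i)
  have hR0 : 0 < R := by linarith
  have hne : (Finset.univ : Finset (Fin k)).Nonempty := ⟨⟨0, by omega⟩, Finset.mem_univ _⟩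
  obtain ⟨i, -, hi⟩ := Finset.exists_min_image Finset.univ a hne
  have hcard : (Finset.univ.erase i).card = k - 1 := by
    rw [Finset.card_erase_of_mem (Finset.mem_univ i), Finset.card_univ, Fintype.card_fin]
  have hne2 : (Finset.univ.erase i).Nonempty := by
    rw [← Finset.card_pos, hcard]
    omega
  obtain ⟨j, hj, hjmin⟩ := Finset.exists_min_image (Finset.univ.erase i) a hne2
  refine ⟨i, j, (Finset.ne_of_mem_erase hj).symm, ?_⟩
  have hi0 : 0 < a i := by linarith [ha i]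
  have hj0 : 0 < a j := by linarith [ha j]
  have hlog : Real.log (a i) + ((k : ℝ) - 1) * Real.log (a j) ≤ Real.log R := by
    have h1 : Real.log (∏ l, a l) ≤ Real.log R := Real.log_le_log (by linarith) hR
    rw [Real.log_prod (fun l _ => by linarith [ha l]),
      ← Finset.add_sum_erase _ _ (Finset.mem_univ i)] at h1
    have h2 : ((k : ℝ) - 1) * Real.log (a j) ≤ ∑ l ∈ Finset.univ.erase i, Real.log (a l) := by
      have h3 := Finset.card_nsmul_le_sum (Finset.univ.erase i) (fun l => Real.log (a l))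
        (Real.log (a j)) (fun l hl => Real.log_le_log hj0 (hjmin l hl))
      rw [hcard, nsmul_eq_mul, Nat.cast_sub (by omega)] at h3
      simpa using h3
    linarith
  have hij : Real.log (a i) ≤ Real.log (a j) := Real.log_le_log hi0 (hi j (Finset.mem_univ j))
  rw [← Real.log_le_log_iff (by positivity) (Real.rpow_pos_of_pos hR0 _),
    Real.log_mul hi0.ne' hj0.ne', Real.log_rpow hR0]
  have hk2 : (2 : ℝ) ≤ k := by exact_mod_cast hk
  rw [div_mul_eq_mul_div, le_div_iff₀ hk0]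
  nlinarith

theorem rad_mul_le (S : Finset ℕ) (G H : MvPolynomial (Fin 2) ℤ) (x : Fin 2 → ℤ) :
    rad S (G * H) x ≤ rad S G x * rad S H x := by
  classical
  unfold rad
  by_cases hG : eval x G = 0
  · rw [map_mul, hG, zero_mul]
    simp only [Int.natAbs_zero, Nat.primeFactors_zero, Finset.empty_sdiff, Finset.prod_empty,
      one_mul]
    exact Nat.succ_le_of_lt (rad_pos S H x)
  by_cases hH : eval x H = 0
  · rw [map_mul, hH, mul_zero]
    simp only [Int.natAbs_zero, Nat.primeFactors_zero, Finset.empty_sdiff, Finset.prod_empty,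
      mul_one]
    exact Nat.succ_le_of_lt (rad_pos S G x)
  rw [map_mul, Int.natAbs_mul, Nat.primeFactors_mul (Int.natAbs_ne_zero.2 hG)
    (Int.natAbs_ne_zero.2 hH), Finset.union_sdiff_distrib]
  rw [← Finset.prod_union_inter]
  apply Nat.le_mul_of_pos_right
  apply Finset.prod_pos
  intro p hp
  have := (Finset.mem_sdiff.1 (Finset.mem_inter.1 hp).1).1
  exact (Nat.prime_of_mem_primeFactors this).pos

theorem prod_rad_le {k : ℕ} {S S' : Finset ℕ} (hSS : S ⊆ S') {F : MvPolynomial (Fin 2) ℤ}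
    {G : Fin k → MvPolynomial (Fin 2) ℤ} (hGF : ∀ i, G i ∣ F) {x : Fin 2 → ℤ}
    (hx : eval x F ≠ 0)
    (hdis : ∀ i j, i ≠ j → ∀ p : ℕ, p.Prime → p ∉ S' → (p : ℤ) ∣ eval x (G i) →
      ¬ (p : ℤ) ∣ eval x (G j)) :
    ∏ i, rad S' (G i) x ≤ rad S F x := by
  classical
  unfold rad
  rw [← Finset.prod_biUnion]
  · apply Finset.prod_le_prod_of_subset_of_one_le'
    · intro p hp
      obtain ⟨i, -, hi⟩ := Finset.mem_biUnion.1 hp
      obtain ⟨h1, h2⟩ := Finset.mem_sdiff.1 hi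
      rw [Finset.mem_sdiff]
      refine ⟨?_, fun h => h2 (hSS h)⟩
      obtain ⟨H, hH⟩ := hGF i
      obtain ⟨hp1, hp2, _⟩ := Nat.mem_primeFactors.1 h1
      refine Nat.mem_primeFactors.2 ⟨hp1, ?_, Int.natAbs_ne_zero.2 hx⟩
      rw [hH, map_mul, Int.natAbs_mul]
      exact Dvd.dvd.mul_right hp2 _
    · intro p hp _
      exact (Nat.prime_of_mem_primeFactors (Finset.mem_sdiff.1 hp).1).one_le
  · intro i _ j _ hij
    rw [Function.onFun, Finset.disjoint_left]
    intro p hp1 hp2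
    obtain ⟨h1, h2⟩ := Finset.mem_sdiff.1 hp1
    obtain ⟨h3, h4⟩ := Finset.mem_sdiff.1 hp2
    obtain ⟨hp, h5, _⟩ := Nat.mem_primeFactors.1 h1
    obtain ⟨_, h6, _⟩ := Nat.mem_primeFactors.1 h3
    exact hdis i j hij p hp h2 (Int.natCast_dvd.2 h5) (Int.natCast_dvd.2 h6)

end Pool.Agent.Helper23.Vojta
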