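import Mathlib
import Pool.Agent.Helper23.Vojta.CurveAux
set_option autoImplicit false
namespace Pool.Agent.Helper23.Vojta
open MvPolynomial

open Classical in
theorem curve_count {w : Fin 2 → ℕ} (hw : ∀ i, 1 ≤ w i) {S : Finset ℕ} (hS : ∀ p ∈ S, p.Prime)
    {F : MvPolynomial (Fin 2) ℤ} (hF : F ≠ 0)
    {k : ℕ} (hk : 2 ≤ k) (G : Fin k → MvPolynomial (Fin 2) ℤ) (e : Fin k → ℕ)
    (he : ∀ i, 0 < e i) (hG : ∀ i, IsWeightedHomogeneous w (G i) (e i)) (hGF : ∀ i, G i ∣ F)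
    (hcop : Pairwise fun i j => IsRelPrime (G i) (G j))
    (a R0 η : ℝ) (ha : 0 ≤ a) (hR0 : 0 < R0) (hη : 0 < η) :
    ∃ C : ℝ, 0 ≤ C ∧ ∀ B : ℝ, 1 ≤ B → ∀ E : Finset (Fin 2 → ℤ),
      (∀ x ∈ E, IsIntegralPoint w S x ∧ (∀ i, |(x i : ℝ)| ≤ B ^ (w i)) ∧ eval x F ≠ 0 ∧
        (rad S F x : ℝ) ≤ R0 * B ^ a) → (E.card : ℝ) ≤ C * B ^ (2 / (k : ℝ) * a + η) := by
  have hG0 : ∀ i, G i ≠ 0 := by
    intro i h
    obtain ⟨H, hH⟩ := hGF i
    rw [h, zero_mul] at hH
    exact hF hH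
  -- common primes
  have hR : ∀ q : Fin k × Fin k, ∃ R : ℕ, R ≠ 0 ∧ (q.1 ≠ q.2 → ∀ p : ℕ, p.Prime → ¬ p ∣ R →
      ∀ x : Fin 2 → ℤ, (p : ℤ) ∣ eval x (G q.1) → (p : ℤ) ∣ eval x (G q.2) →
        ∀ i, (p : ℤ) ∣ x i) := by
    intro q
    by_cases hq : q.1 = q.2
    · exact ⟨1, one_ne_zero, fun h => absurd hq h⟩
    · obtain ⟨R, hR, h⟩ := common_primes hw (hG0 q.1) (hG q.1) (hG q.2) (hcop hq)
      exact ⟨R, hR, fun _ => h⟩
  choose R hR0' hRp using hR
  set S' : Finset ℕ := S ∪ Finset.univ.biUnion (fun q => (R q).primeFactors) with hS'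
  have hSS : S ⊆ S' := Finset.subset_union_left
  have hS'p : ∀ p ∈ S', p.Prime := by
    intro p hp
    rcases Finset.mem_union.1 hp with h | h
    · exact hS p h
    · obtain ⟨q, -, hq⟩ := Finset.mem_biUnion.1 h
      exact Nat.prime_of_mem_primeFactors hq
  have hdis : ∀ x : Fin 2 → ℤ, IsIntegralPoint w S x → ∀ i j, i ≠ j → ∀ p : ℕ, p.Prime → p ∉ S' →
      (p : ℤ) ∣ eval x (G i) → ¬ (p : ℤ) ∣ eval x (G j) := by
    intro x hx i j hij p hp hpS h1 h2
    have h3 : ¬ p ∣ R (i, j) := by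
      intro h
      apply hpS
      rw [hS', Finset.mem_union, Finset.mem_biUnion]
      exact Or.inr ⟨(i, j), Finset.mem_univ _, Nat.mem_primeFactors.2 ⟨hp, h, hR0' _⟩⟩
    obtain ⟨l, hl⟩ := hx.1 p hp (fun h => hpS (hSS h))
    exact hl (hRp (i, j) hij p hp h3 x h1 h2 l)
  -- counting for every pair
  have hZ : ∀ q : Fin k × Fin k, ∃ (Z : MvPolynomial (Fin 2) ℤ) (m : ℕ), Z ≠ 0 ∧
      IsWeightedHomogeneous w Z m ∧ ∃ C : ℝ, 0 ≤ C ∧ (q.1 ≠ q.2 → ∀ B : ℝ, 1 ≤ B →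
        ∀ E : Finset (Fin 2 → ℤ), (∀ x ∈ E, (∀ i, |(x i : ℝ)| ≤ B ^ (w i)) ∧ eval x Z ≠ 0 ∧
          (rad S' (G q.1 * G q.2) x : ℝ) ≤ R0 ^ (2 / (k : ℝ)) * B ^ (2 / (k : ℝ) * a)) →
          (E.card : ℝ) ≤ C * B ^ (2 / (k : ℝ) * a + η)) := by
    intro q
    by_cases hq : q.1 = q.2
    · exact ⟨1, 0, one_ne_zero, isWeightedHomogeneous_one _ _, 0, le_rfl, fun h => absurd hq h⟩
    · set G' : Fin 2 → MvPolynomial (Fin 2) ℤ := fun l => if l = 0 then G q.1 else G q.2 with hG'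
      set e' : Fin 2 → ℕ := fun l => if l = 0 then e q.1 else e q.2 with he'
      have hG'e : ∀ l, IsWeightedHomogeneous w (G' l) (e' l) := by
        intro l
        fin_cases l
        · exact hG q.1
        · exact hG q.2
      have he'0 : ∀ l, 0 < e' l := by
        intro l
        fin_cases l
        · exact he q.1
        · exact he q.2
      have hind : AlgebraicIndependent ℤ G' :=
        algInd he'0 G' hG'e (hcop hq) (hG0 q.2)
      obtain ⟨Z, m, hZ, -, hZm, h⟩ := main_count (F := G q.1 * G q.2) hS'p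
        (mul_ne_zero (hG0 q.1) (hG0 q.2)) ((hG q.1).mul (hG q.2)) hind hG'e
      obtain ⟨C, hC0, hC⟩ := h (2 / (k : ℝ) * a) (R0 ^ (2 / (k : ℝ))) η (by positivity)
        (by positivity) hη
      refine ⟨Z, m, hZ, hZm, C, hC0, ?_⟩
      intro _ B hB E hE
      have h1 := hC B hB E hE
      have h2 : (∑ i with ¬ G' i ∣ G q.1 * G q.2, (e' i : ℝ)) = 0 := by
        apply Finset.sum_eq_zero
        intro i hi
        exfalso
        apply (Finset.mem_filter.1 hi).2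
        fin_cases i
        · exact dvd_mul_right _ _
        · exact dvd_mul_left _ _
      rw [h2, add_zero] at h1
      exact h1
  choose Z m hZ0 hZm C hC0 hC using hZ
  set L : MvPolynomial (Fin 2) ℤ := ∏ q, Z q with hL
  have hL0 : L ≠ 0 := Finset.prod_ne_zero_iff.2 fun q _ => hZ0 q
  have hLm : IsWeightedHomogeneous w L (∑ q, m q) :=
    IsWeightedHomogeneous.prod _ _ _ (fun q _ => hZm q)
  obtain ⟨C1, hC10, hC1⟩ := count_on_Z hw hS hL0 hLm hη
  refine ⟨C1 + ∑ q, C q, add_nonneg hC10 (Finset.sum_nonneg fun q _ => hC0 q), ?_⟩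
  intro B hB E hE
  have hB0 : 0 < B := by linarith
  have hcov : E ⊆ E.filter (fun x => eval x L = 0) ∪
      (Finset.univ.filter (fun q : Fin k × Fin k => q.1 ≠ q.2)).biUnion (fun q =>
        E.filter (fun x => eval x (Z q) ≠ 0 ∧
          (rad S' (G q.1 * G q.2) x : ℝ) ≤ R0 ^ (2 / (k : ℝ)) * B ^ (2 / (k : ℝ) * a))) := by
    intro x hx
    obtain ⟨hxi, hxB, hxF, hxr⟩ := hE x hx
    rw [Finset.mem_union]
    by_cases h0 : eval x L = 0
    · left
      exact Finset.mem_filter.2 ⟨hx, h0⟩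
    · right
      have h1 := prod_rad_le hSS hGF hxF (hdis x hxi)
      have h2 : ∏ i, ((rad S' (G i) x : ℕ) : ℝ) ≤ R0 * B ^ a := by
        refine le_trans ?_ hxr
        exact_mod_cast h1
      obtain ⟨i, j, hij, hle⟩ := two_small hk (fun i => ((rad S' (G i) x : ℕ) : ℝ))
        (fun i => by exact_mod_cast rad_pos S' (G i) x) h2
      rw [Finset.mem_biUnion]
      refine ⟨(i, j), Finset.mem_filter.2 ⟨Finset.mem_univ _, hij⟩,
        Finset.mem_filter.2 ⟨hx, ?_, ?_⟩⟩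
      · rw [hL, map_prod] at h0
        exact (Finset.prod_ne_zero_iff.1 h0) _ (Finset.mem_univ _)
      · have h3 : (rad S' (G i * G j) x : ℝ) ≤ (rad S' (G i) x : ℝ) * (rad S' (G j) x : ℝ) := by
          exact_mod_cast rad_mul_le S' (G i) (G j) x
        refine h3.trans (hle.trans (le_of_eq ?_))
        rw [Real.mul_rpow hR0.le (Real.rpow_nonneg hB0.le _), ← Real.rpow_mul hB0.le, mul_comm a]
  have h1 : (E.card : ℝ) ≤ ((E.filter (fun x => eval x L = 0)).card : ℝ) +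
      ∑ q ∈ Finset.univ.filter (fun q : Fin k × Fin k => q.1 ≠ q.2),
        ((E.filter (fun x => eval x (Z q) ≠ 0 ∧
          (rad S' (G q.1 * G q.2) x : ℝ) ≤ R0 ^ (2 / (k : ℝ)) * B ^ (2 / (k : ℝ) * a))).card : ℝ) := by
    have := (Finset.card_le_card hcov).trans (Finset.card_union_le _ _)
    have h2 := this.trans (Nat.add_le_add_left Finset.card_biUnion_le _)
    exact_mod_cast h2
  have h2 : ((E.filter (fun x => eval x L = 0)).card : ℝ) ≤ C1 * B ^ (2 / (k : ℝ) * a + η) := by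
    refine (hC1 B hB _ ?_).trans ?_
    · intro x hx
      obtain ⟨hx1, hx2⟩ := Finset.mem_filter.1 hx
      obtain ⟨hxi, hxB, _, _⟩ := hE x hx1
      exact ⟨hxi, hxB, hx2⟩
    · apply mul_le_mul_of_nonneg_left _ hC10
      apply Real.rpow_le_rpow_of_exponent_le hB
      have : 0 ≤ 2 / (k : ℝ) * a := by positivity
      linarith
  have h3 : ∑ q ∈ Finset.univ.filter (fun q : Fin k × Fin k => q.1 ≠ q.2),
        ((E.filter (fun x => eval x (Z q) ≠ 0 ∧
          (rad S' (G q.1 * G q.2) x : ℝ) ≤ R0 ^ (2 / (k : ℝ)) * B ^ (2 / (k : ℝ) * a))).card : ℝ)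
      ≤ (∑ q, C q) * B ^ (2 / (k : ℝ) * a + η) := by
    calc _ ≤ ∑ q ∈ Finset.univ.filter (fun q : Fin k × Fin k => q.1 ≠ q.2),
          C q * B ^ (2 / (k : ℝ) * a + η) := by
          apply Finset.sum_le_sum
          intro q hq
          apply hC q (Finset.mem_filter.1 hq).2 B hB
          intro x hx
          obtain ⟨hx1, hx2, hx3⟩ := Finset.mem_filter.1 hx
          obtain ⟨hxi, hxB, _, _⟩ := hE x hx1
          exact ⟨hxB, hx2, hx3⟩
      _ ≤ ∑ q, C q * B ^ (2 / (k : ℝ) * a + η) := by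
          apply Finset.sum_le_univ_sum_of_nonneg
          intro q
          exact mul_nonneg (hC0 q) (Real.rpow_nonneg hB0.le _)
      _ = _ := by rw [Finset.sum_mul]
  rw [add_mul]
  linarith

end Pool.Agent.Helper23.Vojta
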