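import Mathlib

/-!
# Integral points of weighted projective stacks

`ℙ(w) = ℙ(w_0, …, w_n)` over `ℤ_S = ℤ[1/p : p ∈ S]` is smooth and proper; it is a Deligne-Mumford
stack when `S` contains the primes dividing the weights.
-/

set_option autoImplicit false

namespace Pool.Agent.Helper23.Vojta

open MvPolynomial

/-- Reduced integer coordinate vectors of the `ℤ_S`-points of the stack `ℙ(w)`: no prime outside
`S` divides all `x i`, and for no `p ∈ S` do all `p ^ w i` divide `x i`. Every `ℤ_S`-point is given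
by exactly one such vector up to `x i ↦ (-1) ^ w i * x i`. -/
def IsIntegralPoint {n : ℕ} (w : Fin (n + 1) → ℕ) (S : Finset ℕ) (x : Fin (n + 1) → ℤ) : Prop :=
  (∀ p : ℕ, p.Prime → p ∉ S → ∃ i, ¬ (p : ℤ) ∣ x i) ∧
    ∀ p ∈ S, ∃ i, ¬ (p : ℤ) ^ w i ∣ x i

/-- The height attached to `O(1)`: `max_i |x i| ^ (1 / w i)`. -/
noncomputable def height {n : ℕ} (w : Fin (n + 1) → ℕ) (x : Fin (n + 1) → ℤ) : ℝ :=
  Finset.univ.sup' Finset.univ_nonempty fun i => |(x i : ℝ)| ^ (1 / (w i : ℝ))

/-- The truncated counting function `N^(1)(D, x)`, `D = V(F)`. -/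
noncomputable def truncatedCount {n : ℕ} (S : Finset ℕ) (F : MvPolynomial (Fin (n + 1)) ℤ)
    (x : Fin (n + 1) → ℤ) : ℝ :=
  ∑ p ∈ (eval x F).natAbs.primeFactors \ S, Real.log p

end Pool.Agent.Helper23.Vojta
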